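import Pool.Agent.MP_66cee2_co.DY.Spec
import Pool.Agent.MP_66cee2_co.XT.CAU

/-! The averaged fields are Cauchy, and asymptotically orthogonal at unit distance. -/

namespace Pool.Agent.MP_66cee2_co.DX

open MeasureTheory Filter Topology Matrix Pool.Agent.MP_66cee2_co.XT

namespace CAx

variable {Ω : Type} [MeasurableSpace Ω] {ν : Measure Ω}

theorem int_w {f g : ℕ → Ω → ℝ} (hf : ∀ i, MemLp (f i) 2 ν) (hg : ∀ i, MemLp (g i) 2 ν)
    (s : Finset ℕ) (c : ℕ → ℝ) :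
    ∫ w, (∑ i ∈ s, c i * f i w) * (∑ i ∈ s, c i * g i w) ∂ν =
      ∑ i ∈ s, ∑ i' ∈ s, c i * c i' * ∫ w, f i w * g i' w ∂ν := by
  have h : ∀ i i', Integrable (fun w => c i * c i' * (f i w * g i' w)) ν := fun i i' =>
    ((hf i).integrable_mul (hg i')).const_mul _
  have e : ∀ w, (∑ i ∈ s, c i * f i w) * (∑ i ∈ s, c i * g i w) =
      ∑ i ∈ s, ∑ i' ∈ s, c i * c i' * (f i w * g i' w) := fun w => by
    rw [Finset.sum_mul_sum]
    exact Finset.sum_congr rfl fun _ _ => Finset.sum_congr rfl fun _ _ => by ring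
  simp only [e]
  rw [integral_finsetSum _ fun i _ => integrable_finsetSum _ fun i' _ => h i i']
  refine Finset.sum_congr rfl fun i _ => ?_
  rw [integral_finsetSum _ fun i' _ => h i i']
  simp only [integral_const_mul]

theorem abs_w {s : Finset ℕ} {c : ℕ → ℝ} (hc : ∀ i, 0 ≤ c i) (h1 : ∑ i ∈ s, c i = 1)
    {x : ℕ → ℕ → ℝ} {η : ℝ} (h : ∀ i i', |x i i'| ≤ η) :
    |∑ i ∈ s, ∑ i' ∈ s, c i * c i' * x i i'| ≤ η := by
  have e : ∑ i ∈ s, ∑ i' ∈ s, c i * c i' * η = η := by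
    simp only [← Finset.sum_mul, ← Finset.mul_sum, h1, mul_one, one_mul]
  rw [← e]
  refine (Finset.abs_sum_le_sum_abs _ _).trans (Finset.sum_le_sum fun i _ => ?_)
  refine (Finset.abs_sum_le_sum_abs _ _).trans (Finset.sum_le_sum fun i' _ => ?_)
  rw [abs_mul, abs_of_nonneg (mul_nonneg (hc i) (hc i'))]
  exact mul_le_mul_of_nonneg_left (h i i') (mul_nonneg (hc i) (hc i'))

theorem swap_w {T : Type} [Fintype T] (κ : T → ℝ) (s : Finset ℕ) (c : ℕ → ℝ) (x : T → ℕ → ℕ → ℝ) :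
    ∑ t, κ t * ∑ i ∈ s, ∑ i' ∈ s, c i * c i' * x t i i' =
      ∑ i ∈ s, ∑ i' ∈ s, c i * c i' * ∑ t, κ t * x t i i' := by
  simp only [Finset.mul_sum]
  rw [Finset.sum_comm]
  refine Finset.sum_congr rfl fun i _ => ?_
  rw [Finset.sum_comm]
  exact Finset.sum_congr rfl fun _ _ => Finset.sum_congr rfl fun _ _ => by ring

theorem abs_k {T : Type} [Fintype T] (κ : T → ℝ) {x y : T → ℝ} {η : ℝ} (hη : 0 < η)
    (h0 : ∑ t, κ t * y t = 0) (h : ∀ t, |x t - y t| ≤ η / (∑ t, |κ t| + 1)) :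
    |∑ t, κ t * x t| ≤ η := by
  have hB : 0 ≤ ∑ t, |κ t| := Finset.sum_nonneg fun _ _ => abs_nonneg _
  have e : ∑ t, κ t * x t = ∑ t, κ t * (x t - y t) := by
    simp only [mul_sub, Finset.sum_sub_distrib, h0, sub_zero]
  rw [e]
  refine (Finset.abs_sum_le_sum_abs _ _).trans ?_
  refine (Finset.sum_le_sum fun t _ => (abs_mul _ _).le.trans
    (mul_le_mul_of_nonneg_left (h t) (abs_nonneg _))).trans ?_
  rw [← Finset.sum_mul, ← mul_div_assoc, div_le_iff₀ (by positivity)]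
  nlinarith

theorem one_delta {T : Type} [Fintype T] {M : ℕ} {p : T → GG M → GG M → Prop}
    (h : ∀ t, ∃ δ : ℝ, 0 < δ ∧ ∀ z z', Cls δ z z' → p t z z') :
    ∃ δ : ℝ, 0 < δ ∧ ∀ t z z', Cls δ z z' → p t z z' := by
  have k : ∀ᶠ δ in 𝓝[>] (0 : ℝ), ∀ t, ∀ z z', Cls δ z z' → p t z z' := by
    refine eventually_all.2 fun t => ?_
    obtain ⟨δ, hδ, h⟩ := h t
    filter_upwards [Ioo_mem_nhdsGT hδ] with δ' h' z z' hz
    exact h z z' ⟨hz.tl, hz.ne, hz.ne', hz.rat, hz.rat', hz.near.trans h'.2.le⟩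
  obtain ⟨δ, h1, h2⟩ := (k.and self_mem_nhdsWithin).exists
  exact ⟨δ, h2, h1⟩

end CAx

open CAx CAUA in
theorem ofCA : OfCA := by
  intro hC hS M n C ε O₁ O₂ ν ι _ J g F χ c q hν hL hW hc hy hq
  have h := fun a b a' b' => hC M n C ε O₁ O₂ ν hν _ _ (hW.mem a b) (hW.mem a' b')
  have hm : ∀ a b (z : GG M), MemLp (ev (xi χ F a b) z) 2 ν := fun a b => (h a b a b).1
  have hPK : ∀ a b j v, MemLp (fun w => PK χ F c q j v w a b) 2 ν := fun a b j v => by
    simp only [PK, Matrix.of_apply, mn]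
    exact memLp_finsetSum _ fun i _ => (hm a b _).const_mul _
  refine ⟨hPK, fun a b η hη => ?_, fun v u hv hu h1 hu0 => ?_⟩
  · obtain ⟨N, hN⟩ := hy a b η hη
    obtain ⟨N', hN'⟩ := hq.near (1 / ((N : ℝ) + 1) / 2) (by positivity)
    refine ⟨max N N', fun j j' hj hj' v hv => hN j j' (le_of_max_le_left hj)
      (le_of_max_le_left hj') _ (hq.mem j v) _ (hq.mem j' v) ?_⟩
    have k := norm_sub_le (em (q j v) - v) (em (q j' v) - v)
    rw [sub_sub_sub_cancel_right] at k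
    linarith [hN' j (le_of_max_le_right hj) v hv, hN' j' (le_of_max_le_right hj') v hv]
  have hvu : Rl (v + u) := fun j => by simp [hv j, hu j]
  refine Metric.tendsto_atTop.2 fun η hη => ?_
  obtain ⟨κ, hκ⟩ : ∃ κ : ι × ι × ι × ι → ℝ, κ = fun t => J t.2.2.2 t.2.2.1 * J t.2.1 t.1 :=
    ⟨_, rfl⟩
  have hB : 0 ≤ ∑ t, |κ t| := Finset.sum_nonneg fun _ _ => abs_nonneg _
  obtain ⟨δ, hδ, hd⟩ := one_delta (T := ι × ι × ι × ι) (M := M) (p := fun t z z' => ∀ y : GG M,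
      |∫ w, ev (xi χ F t.1 t.2.2.2) y w * ev (xi χ F t.2.2.1 t.2.1) (y + z) w ∂ν -
        ∫ w, ev (xi χ F t.1 t.2.2.2) y w * ev (xi χ F t.2.2.1 t.2.1) (y + z') w ∂ν| ≤
          η / 2 / (∑ t, |κ t| + 1)) fun t => by
    obtain ⟨δ, h2, h3⟩ := (h t.1 t.2.2.2 t.2.2.1 t.2.1).2 (η / 2 / (∑ t, |κ t| + 1))
      (by positivity)
    exact ⟨δ, h2, fun z z' hz y => h3 y z z' hz⟩
  obtain ⟨δ', hδ', hs⟩ := hS M u h1 hu0 δ hδ
  obtain ⟨N, hN⟩ := hq.near (δ' / 4) (by positivity)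
  obtain ⟨N', hN'⟩ := exists_nat_one_div_lt (show 0 < δ' / 4 by positivity)
  refine ⟨max N N', fun j hj => ?_⟩
  have hj' : 1 / ((j : ℝ) + 1) ≤ δ' / 4 :=
    (Nat.one_div_le_one_div (le_of_max_le_right hj)).trans hN'.le
  simp only [trace_eq]
  rw [int_sum J (fun a b => hPK a b j v) fun a b => hPK a b j (v + u), Real.dist_eq, sub_zero]
  have e : ∀ a b a' b', ∫ w, PK χ F c q j v w a b * PK χ F c q j (v + u) w a' b' ∂ν =
      ∑ i ∈ Finset.range (c j).N, ∑ i' ∈ Finset.range (c j).N, (c j).c i * (c j).c i' *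
        ∫ w, ev (xi χ F a b) (q j v + (c j).p i) w *
          ev (xi χ F a' b') (q j (v + u) + (c j).p i') w ∂ν := fun a b a' b' => by
    simp only [PK, Matrix.of_apply, mn]
    exact int_w (fun i => hm a b _) (fun i => hm a' b' _) _ _
  simp only [e]
  rw [swap_w]
  refine (abs_w (hc j).pos (hc j).one (η := η / 2) fun i i' => ?_).trans_lt (by linarith)
  obtain ⟨y, hy1⟩ : ∃ y, y = q j v + (c j).p i := ⟨_, rfl⟩
  obtain ⟨z, hz1⟩ : ∃ z, z = q j (v + u) + (c j).p i' - y := ⟨_, rfl⟩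
  have hz2 : q j (v + u) + (c j).p i' = y + z := by rw [hz1]; abel
  have hp := (hc j).mem i
  have hp' := (hc j).mem i'
  have hz3 : z ∈ Hg M := by
    rw [hz1, hy1]
    exact (Hg M).sub_mem ((Hg M).add_mem (hq.mem _ _) hp'.1) ((Hg M).add_mem (hq.mem _ _) hp.1)
  have hz4 : ‖em z - u‖ ≤ δ' := by
    have e1 : em z - u = (em (q j (v + u)) - (v + u) - (em (q j v) - v)) +
        (em ((c j).p i') - em ((c j).p i)) := by
      rw [hz1, hy1, em_sub, em_add, em_add]; abel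
    rw [e1]
    have k1 := norm_add_le (em (q j (v + u)) - (v + u) - (em (q j v) - v))
      (em ((c j).p i') - em ((c j).p i))
    have k2 := norm_sub_le (em (q j (v + u)) - (v + u)) (em (q j v) - v)
    have k3 := norm_sub_le (em ((c j).p i')) (em ((c j).p i))
    linarith [hN j (le_of_max_le_left hj) v hv, hN j (le_of_max_le_left hj) _ hvu, hp.2, hp'.2]
  obtain ⟨z', hz5, hz6, hz7⟩ := hs z hz3 hz4
  rw [← hy1, hz2]
  have k := fun t => hd t z z' hz5 y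
  rw [hκ] at k
  refine abs_k _ (half_pos hη) ?_ k
  rw [← int_sum J (fun a b => hm a b y) fun a b => hm a b (y + z')]
  refine integral_eq_zero_of_ae (hν.ae.mono fun w hw => sum_zero J ?_ _ _)
  have e2 : em y - em (y + z') = -em z' := by rw [em_add]; abel
  rw [hL.ip, hw.2.2.1.2 y (y + z') (fun j => by rw [e2]; simpa using hz7 j)
    (by rw [e2, norm_neg, hz6])]
  norm_num

end Pool.Agent.MP_66cee2_co.DX
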