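import Pool.Agent.MP_66cee2_co.DY.Spec

/-! The correlations are uniformly continuous in the first coordinate. -/

namespace Pool.Agent.MP_66cee2_co.DX

open MeasureTheory Filter Topology Matrix Pool.Agent.MP_66cee2_co.XT
open scoped RealInnerProductSpace

namespace CORx

variable {M : ℕ}

theorem rl_single (l y : KK) :
    (rl l : GG M) * Pi.single 0 y = Pi.single 0 (l * y) := by
  funext j
  refine Fin.cases ?_ (fun i => ?_) j
  · simp [rl]
  · simp [rl]

theorem rl_tail (l : KK) (t : GG M) (ht : t 0 = 0) : (rl l : GG M) * t = t := by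
  funext j
  refine Fin.cases ?_ (fun i => ?_) j
  · simp [rl, ht]
  · simp [rl]

theorem inner_move {G H : Type} [AddCommGroup G] [NormedAddCommGroup H] [InnerProductSpace ℝ H]
    {U : G → H →ₗᵢ[ℝ] H} (hU : Rep U) (y t s : G) (x x' : H) :
    ⟪U y x, U (y + (t + s)) x'⟫ = ⟪U (-t) x, U s x'⟫ := by
  have h1 : U y x = U (y + t) (U (-t) x) := by rw [← hU.add, add_neg_cancel_right]
  rw [h1, ← add_assoc, hU.add (y + t) s, LinearIsometry.inner_map_map]

end CORx

open CORx in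
theorem ofCOR : OfCOR := by
  intro hREP hRP M n C ε O₁ O₂ ν hS ξ ξ' h h'
  obtain ⟨U, R, hU, hc, hi, hx⟩ := hREP M n C ε O₁ O₂ ν hS
  obtain ⟨f1, e1⟩ := hx ξ h
  obtain ⟨f2, e2⟩ := hx ξ' h'
  set x := h.toLp _ with hxd
  set x' := h'.toLp _ with hxd'
  refine ⟨fun z => (memLp_congr_ae (e1 z)).1 (Lp.memLp _), fun η hη => ?_⟩
  have hint : ∀ y z : GG M, ∫ w, ev ξ y w * ev ξ' z w ∂ν = ⟪U y x, U z x'⟫ := fun y z => by
    rw [L2.inner_def]
    refine integral_congr_ae ?_
    filter_upwards [e1 y, e2 z] with w a b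
    rw [a, b]
    simp [mul_comm]
  have hrot : Rot (fun y : KK => U (Pi.single 0 y)) R :=
    ⟨⟨fun v => by simpa using hU.zero v, fun a b v => by
      rw [Pi.single_add]; exact hU.add _ _ v⟩,
      fun l z v hl => by rw [hc l _ v hl, rl_single], hi⟩
  have hp : 0 < ‖x‖ + 1 := by positivity
  obtain ⟨δ, hδ, hd⟩ := hRP _ _ R hrot x' f2 (η / (‖x‖ + 1)) (div_pos hη hp)
  refine ⟨δ, hδ, fun y z z' hz => ?_⟩
  set t : GG M := Function.update z 0 0 with ht
  have t0 : t 0 = 0 := by simp [ht]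
  have a1 : z = t + Pi.single 0 (z 0) := by
    funext j
    refine Fin.cases ?_ (fun i => ?_) j
    · simp [ht]
    · simp [ht]
  have a2 : z' = t + Pi.single 0 (z' 0) := by
    funext j
    refine Fin.cases ?_ (fun i => ?_) j
    · simp [ht]
    · simp [ht, hz.tl i]
  have hf : Fix R (U (-t) x) := fun l hl => by
    rw [hc l _ x hl, f1 l hl, rl_tail l (-t) (by simp [t0])]
  have b := hd (U (-t) x) hf (z 0) (z' 0) hz.ne hz.ne' hz.rat hz.rat' hz.near
  rw [LinearIsometry.norm_map] at b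
  have c1 : ⟪U y x, U (y + z) x'⟫ = ⟪U (-t) x, U (Pi.single 0 (z 0)) x'⟫ := by
    rw [← inner_move hU y t, ← a1]
  have c2 : ⟪U y x, U (y + z') x'⟫ = ⟪U (-t) x, U (Pi.single 0 (z' 0)) x'⟫ := by
    rw [← inner_move hU y t, ← a2]
  rw [hint, hint, c1, c2]
  refine b.trans ?_
  rw [div_mul_eq_mul_div, div_le_iff₀ hp]
  nlinarith

end Pool.Agent.MP_66cee2_co.DX
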