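import Pool.Agent.MP_66cee2_co.DY.Spec
import Pool.Agent.MP_66cee2_co.XT.PTS
import Pool.Agent.MP_66cee2_co.XT.CHI

/-! The weight and the rational points near a given point. -/

namespace Pool.Agent.MP_66cee2_co.DX

open MeasureTheory Filter Topology Pool.Agent.MP_66cee2_co.XT

theorem rowCHI1 : RowCHI1 := by
  intro M n C ε O₁ O₂ ν ι _ F hS hF
  obtain ⟨t, t0, t1, ti⟩ := CHIA.shell ν (fun w : Om KK (M + 1) n => ‖w.1‖) (by fun_prop) hS.fin
  have hB : ∀ k : ℕ, ∃ B : ℝ, ∀ u ∈ Metric.closedBall (0 : Eu n) (C + 2 * k), ‖F u‖ ≤ B :=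
    fun k => (isCompact_closedBall _ _).exists_bound_of_continuousOn hF.continuousOn
  choose B hB using hB
  let c : ℕ → ℝ := fun k => t k / (1 + B k ^ 2)
  have c0 : ∀ k, 0 < c k := fun k => div_pos (t0 k) (by positivity)
  have hχ : Measurable fun a : Ec (M + 1) => c ⌈‖a‖⌉₊ :=
    (measurable_from_top (f := c)).comp measurable_norm.nat_ceil
  refine ⟨fun a => c ⌈‖a‖⌉₊, hχ, fun R => ?_, fun a b => ?_⟩
  · obtain ⟨k, -, hk⟩ := (Finset.range (⌈R⌉₊ + 1)).exists_min_image c ⟨0, by simp⟩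
    exact ⟨c k, c0 k, fun a ha =>
      hk _ (Finset.mem_range.2 (Nat.lt_succ_of_le (Nat.ceil_mono ha)))⟩
  · have hm := measurable_ev (K := KK) (measurable_xi hχ hF a b) 0
    rw [memLp_two_iff_integrable_sq hm.aestronglyMeasurable]
    refine ti.mono' (hm.pow_const 2).aestronglyMeasurable (hS.ae.mono fun w hw => ?_)
    have h1 := hw.2.1 0
    rw [em_zero, ps_zero] at h1
    have h2 : ‖F (w.2.2 0)‖ ≤ B ⌈‖w.1‖⌉₊ := hB _ _ (by
      rw [mem_closedBall_zero_iff]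
      linarith [Nat.le_ceil ‖w.1‖])
    have h3 : ∀ e, |F (w.2.2 0) e| ≤ B ⌈‖w.1‖⌉₊ := fun e => (norm_le_pi_norm _ e).trans h2
    have h4 : |ev (xi (fun a : Ec (M + 1) => c ⌈‖a‖⌉₊) F a b) (0 : GG M) w| ≤ t ⌈‖w.1‖⌉₊ := by
      simp only [ev, xi, em_zero, ps_zero]
      rw [abs_mul, abs_mul, abs_of_pos (c0 _)]
      have h5 : |F (w.2.2 0) a| * |F (w.2.2 0) b| ≤ 1 + B ⌈‖w.1‖⌉₊ ^ 2 := by
        have := mul_le_mul (h3 a) (h3 b) (abs_nonneg _) ((abs_nonneg _).trans (h3 a))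
        nlinarith
      calc _ ≤ c ⌈‖w.1‖⌉₊ * (1 + B ⌈‖w.1‖⌉₊ ^ 2) := mul_le_mul_of_nonneg_left h5 (c0 _).le
        _ = _ := div_mul_cancel₀ _ (by positivity)
    rw [Real.norm_eq_abs, abs_pow]
    have h6 := abs_nonneg (ev (xi (fun a : Ec (M + 1) => c ⌈‖a‖⌉₊) F a b) (0 : GG M) w)
    nlinarith [t1 ⌈‖w.1‖⌉₊]

namespace CPx

theorem kk_le : X.kk ≤ KK := by
  rintro z ⟨⟨a, ha⟩, b, hb⟩
  refine mem_algebraicClosure_iff.2 ?_
  have h : z = (a : ℂ) + (b : ℂ) * Complex.I := by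
    apply Complex.ext <;> simp [ha, hb]
  have hI : IsAlgebraic ℚ Complex.I :=
    IsAlgebraic.of_pow two_pos (by rw [Complex.I_sq]; exact isAlgebraic_one.neg)
  rw [h]
  exact (isAlgebraic_rat ℚ a).add ((isAlgebraic_rat ℚ b).mul hI)

/-- The integer coordinates; the imaginary part is kept in the first place only. -/
noncomputable def gz {M : ℕ} (j : ℕ) (v : Ec (M + 1)) (k : Fin (M + 1)) : ℤ × ℤ :=
  ((PTSA.fz j (v k)).1, if k = 0 then (PTSA.fz j (v k)).2 else 0)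

theorem gz_eq {M : ℕ} (j : ℕ) {v : Ec (M + 1)} (hv : Rl v) (k : Fin (M + 1)) :
    gz j v k = PTSA.fz j (v k) := by
  refine Fin.cases ?_ (fun i => ?_) k
  · simp [gz]
  · simp [gz, PTSA.fz, hv i]

end CPx

open PTSA CPx in
theorem rowPT : RowPT := by
  intro M
  refine ⟨fun j v k => Subfield.inclusion kk_le (pp j 0 (gz j v k)), fun j v => ⟨fun k => ?_,
    fun k => ?_⟩, fun ε hε => ?_, fun j z => ?_⟩
  · exact (pp j 0 (gz j v k)).2
  · change ((pp j 0 (gz j v k.succ) : X.kk) : ℂ).im = 0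
    simp [pp, gz]
  · obtain ⟨N, hN⟩ := exists_nat_ge (3 * (M + 1 + 1) / ε)
    refine ⟨N, fun j hj v hv => ?_⟩
    have h1 : (N : ℝ) ≤ j := by exact_mod_cast hj
    have h2 : ((M : ℝ) + 1 + 1) * (3 / ((j : ℝ) + 1)) ≤ ε := by
      rw [div_le_iff₀ hε] at hN
      rw [← mul_div_assoc, div_le_iff₀ (by positivity)]
      nlinarith
    rw [EuclideanSpace.norm_eq, Real.sqrt_le_left hε.le]
    have h3 : ∀ k, ‖((pp j 0 (gz j v k) : X.kk) : ℂ) - v k‖ ≤ 3 / ((j : ℝ) + 1) := fun k => by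
      rw [gz_eq j hv]
      exact near (Nat.zero_le j) (v k)
    refine (Finset.sum_le_card_nsmul _ _ ((3 / ((j : ℝ) + 1)) ^ 2) fun k _ =>
      pow_le_pow_left₀ (norm_nonneg _) (h3 k) 2).trans
      (le_trans ?_ (pow_le_pow_left₀ (by positivity) h2 2))
    rw [mul_pow, Finset.card_fin, nsmul_eq_mul]
    push_cast
    gcongr
    nlinarith [(Nat.cast_nonneg M : (0 : ℝ) ≤ M)]
  · have h0 : Measurable fun (v : Ec (M + 1)) k => fz j (v k) := by
      unfold fz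
      fun_prop
    exact h0 (Set.to_countable {a : Fin (M + 1) → ℤ × ℤ | (fun k => Subfield.inclusion kk_le
      (pp j 0 ((a k).1, if k = 0 then (a k).2 else 0))) = z}).measurableSet

end Pool.Agent.MP_66cee2_co.DX
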