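import Pool.Agent.MP_66cee2_co.DY.Spec

/-! The real space inside the complex space. -/

namespace Pool.Agent.MP_66cee2_co.DX

open MeasureTheory Filter Topology Pool.Agent.MP_66cee2_co.XT

noncomputable section

namespace EMx

variable {M : ℕ}

/-- the embedding as a function. -/
def ef (x : Eu (M + 2)) : Ec (M + 1) :=
  WithLp.toLp 2 (Fin.cons ((x 0 : ℂ) + (x (Fin.succ 0) : ℂ) * Complex.I)
    fun j : Fin M => (x j.succ.succ : ℂ))

/-- the projection as a function. -/
def pf (v : Ec (M + 1)) : Eu (M + 2) :=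
  WithLp.toLp 2 (Fin.cons (v 0).re (Fin.cons (v 0).im fun j : Fin M => (v j.succ).re))

theorem ef_zero (x : Eu (M + 2)) :
    ef x 0 = (x 0 : ℂ) + (x (Fin.succ 0) : ℂ) * Complex.I := rfl

theorem ef_succ (x : Eu (M + 2)) (j : Fin M) : ef x j.succ = (x j.succ.succ : ℂ) := rfl

theorem pf_zero (v : Ec (M + 1)) : pf v 0 = (v 0).re := rfl

theorem pf_one (v : Ec (M + 1)) : pf v (Fin.succ 0) = (v 0).im := rfl

theorem pf_succ (v : Ec (M + 1)) (j : Fin M) : pf v j.succ.succ = (v j.succ).re := rfl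

theorem extc {v w : Ec (M + 1)} (h0 : v 0 = w 0) (h : ∀ j : Fin M, v j.succ = w j.succ) :
    v = w := by
  ext j
  exact Fin.cases h0 h j

theorem extr {x y : Eu (M + 2)} (h0 : x 0 = y 0) (h1 : x (Fin.succ 0) = y (Fin.succ 0))
    (h : ∀ j : Fin M, x j.succ.succ = y j.succ.succ) : x = y := by
  ext j
  refine Fin.cases h0 (fun i => ?_) j
  exact Fin.cases h1 h i

theorem nsq (z : ℂ) : ‖z‖ ^ 2 = z.re ^ 2 + z.im ^ 2 := by
  rw [Complex.sq_norm, Complex.normSq_apply]; ring

theorem nr (x : Eu (M + 2)) :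
    ‖x‖ ^ 2 = x 0 ^ 2 + x (Fin.succ 0) ^ 2 + ∑ j : Fin M, x j.succ.succ ^ 2 := by
  rw [EuclideanSpace.norm_sq_eq, Fin.sum_univ_succ, Fin.sum_univ_succ]
  simp only [Real.norm_eq_abs, sq_abs]
  ring

theorem nc (v : Ec (M + 1)) : ‖v‖ ^ 2 = (v 0).re ^ 2 + (v 0).im ^ 2 +
    ∑ j : Fin M, ((v j.succ).re ^ 2 + (v j.succ).im ^ 2) := by
  rw [EuclideanSpace.norm_sq_eq, Fin.sum_univ_succ]
  simp only [nsq]

/-- the embedding as a linear map. -/
def eL : Eu (M + 2) →ₗ[ℝ] Ec (M + 1) where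
  toFun := ef
  map_add' x y := extc (by
      rw [PiLp.add_apply, ef_zero, ef_zero, ef_zero, PiLp.add_apply, PiLp.add_apply]
      push_cast; ring) fun j => by
    rw [PiLp.add_apply, ef_succ, ef_succ, ef_succ, PiLp.add_apply]
    push_cast; ring
  map_smul' c x := extc (by
      rw [PiLp.smul_apply, ef_zero, ef_zero, PiLp.smul_apply, PiLp.smul_apply, RingHom.id_apply,
        Complex.real_smul, smul_eq_mul, smul_eq_mul]
      push_cast; ring) fun j => by
    rw [PiLp.smul_apply, ef_succ, ef_succ, PiLp.smul_apply, RingHom.id_apply,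
      Complex.real_smul, smul_eq_mul]
    push_cast; ring

/-- the projection as a linear map. -/
def pL : Ec (M + 1) →ₗ[ℝ] Eu (M + 2) where
  toFun := pf
  map_add' v w := extr (by
      rw [PiLp.add_apply, pf_zero, pf_zero, pf_zero, PiLp.add_apply, Complex.add_re])
    (by rw [PiLp.add_apply, pf_one, pf_one, pf_one, PiLp.add_apply, Complex.add_im]) fun j => by
    rw [PiLp.add_apply, pf_succ, pf_succ, pf_succ, PiLp.add_apply, Complex.add_re]
  map_smul' c v := extr (by
      rw [PiLp.smul_apply, pf_zero, pf_zero, PiLp.smul_apply, RingHom.id_apply, Complex.smul_re])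
    (by rw [PiLp.smul_apply, pf_one, pf_one, PiLp.smul_apply, RingHom.id_apply, Complex.smul_im])
    fun j => by
    rw [PiLp.smul_apply, pf_succ, pf_succ, PiLp.smul_apply, RingHom.id_apply, Complex.smul_re]

theorem norm_ef (x : Eu (M + 2)) : ‖ef x‖ = ‖x‖ := by
  refine (sq_eq_sq₀ (norm_nonneg _) (norm_nonneg _)).1 ?_
  rw [nc, nr]
  simp [ef_zero, ef_succ]

theorem pf_ef (x : Eu (M + 2)) : pf (ef x) = x :=
  extr (by simp [pf_zero, ef_zero]) (by rw [pf_one, ef_zero]; simp) fun j => by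
    rw [pf_succ, ef_succ, Complex.ofReal_re]

theorem ef_pf {v : Ec (M + 1)} (h : Rl v) : ef (pf v) = v :=
  extc (by rw [ef_zero, pf_zero, pf_one, Complex.re_add_im]) fun j => by
    rw [ef_succ, pf_succ]
    exact Complex.ext rfl (by rw [h j, Complex.ofReal_im])

theorem rl_ef (x : Eu (M + 2)) : Rl (ef x) := fun j => by rw [ef_succ, Complex.ofReal_im]

theorem norm_pf (v : Ec (M + 1)) : ‖pf v‖ ≤ ‖v‖ := by
  refine (sq_le_sq₀ (norm_nonneg _) (norm_nonneg _)).1 ?_
  rw [nc, nr, pf_zero, pf_one]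
  refine add_le_add le_rfl (Finset.sum_le_sum fun j _ => ?_)
  rw [pf_succ]
  exact le_add_of_nonneg_right (sq_nonneg _)

theorem ae_ne : ∀ᵐ z ∂X.sig (M + 2), z 0 ≠ 0 := by
  have hm : MeasurableSet {z : Eu (M + 2) | z 0 ≠ 0} :=
    (measurableSet_eq_fun (by fun_prop) measurable_const).compl
  rw [X.sig, ae_map_iff (by fun_prop) hm]
  refine ae_restrict_of_ae ?_
  have hs : (LinearMap.ker (EuclideanSpace.projₗ (𝕜 := ℝ) (0 : Fin (M + 2)))) ≠ ⊤ := by
    intro h
    have h1 : EuclideanSpace.single (0 : Fin (M + 2)) (1 : ℝ) ∈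
        LinearMap.ker (EuclideanSpace.projₗ (𝕜 := ℝ) (0 : Fin (M + 2))) := h ▸ Submodule.mem_top
    simp at h1
  have h0 := Measure.addHaar_submodule (volume : Measure (Eu (M + 2))) _ hs
  filter_upwards [measure_eq_zero_iff_ae_notMem.1 h0] with z hz
  have h1 : z 0 ≠ 0 := by simpa using hz
  have h2 : z ≠ 0 := fun h => h1 (by rw [h]; rfl)
  rw [PiLp.smul_apply, smul_eq_mul]
  exact mul_ne_zero (inv_ne_zero (norm_ne_zero_iff.2 h2)) h1

end EMx

open EMx in
theorem rowEM : RowEM := by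
  intro M
  refine ⟨⟨eL, norm_ef⟩, LinearMap.toContinuousLinearMap pL, rl_ef, norm_pf, fun v hv => ?_, ?_,
    fun l a o h1 h2 => ?_⟩
  · change ‖pf v‖ = ‖v‖
    rw [← norm_ef, ef_pf hv]
  · filter_upwards [ae_ne (M := M)] with z hz h
    change ef z 0 = 0 at h
    have := congrArg Complex.re h
    rw [ef_zero] at this
    exact hz (by simpa using this)
  · have l0 : ∀ j, l j ≠ 0 := fun j h => by simpa [h] using h1 j
    have hr : Rl (rot (fun j => (l j)⁻¹) (ef (o - pf a))) := fun j => by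
      rw [rot_apply, h2, inv_one, one_mul]
      exact rl_ef _ j
    refine ⟨pf (rot (fun j => (l j)⁻¹) (ef (o - pf a))), ?_⟩
    change pL (a + rot l (ef (pf _))) = o
    have e : rot l (rot (fun j => (l j)⁻¹) (ef (o - pf a))) = ef (o - pf a) := by
      ext j
      rw [rot_apply, rot_apply, mul_inv_cancel_left₀ (l0 j)]
    rw [ef_pf hr, e, map_add]
    change pf a + pf (ef _) = o
    rw [pf_ef, add_sub_cancel]

end

end Pool.Agent.MP_66cee2_co.DX
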