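import Pool.Agent.MP_66cee2_co.DY.Spec

/-! The facts about the projections onto the vectors that are continuous along a line. -/

namespace Pool.Agent.MP_66cee2_co.DX

open scoped RealInnerProductSpace

namespace HCx

variable {H : Type} [NormedAddCommGroup H] [InnerProductSpace ℝ H] {U R : KK → H →ₗᵢ[ℝ] H}

theorem comm (h : Rep U) (a b : KK) (v : H) : U a (U b v) = U b (U a v) := by
  rw [← h.add, ← h.add, add_comm]

theorem tr (h : Rep U) (c a : KK) (v : H) (hv : v ∈ Hs U c) : U a v ∈ Hs U c := fun η hη => by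
  obtain ⟨δ, h1, h2⟩ := hv η hη
  refine ⟨δ, h1, fun z hz hz' => ?_⟩
  rw [comm h, ← map_sub, LinearIsometry.norm_map]
  exact h2 z hz hz'

theorem rotH (h : Rot U R) (l c : KK) (hl : ‖(l : ℂ)‖ = 1) (v : H) (hv : v ∈ Hs U c) :
    R l v ∈ Hs U (l * c) := fun η hη => by
  obtain ⟨δ, h1, h2⟩ := hv η hη
  refine ⟨δ, h1, fun z hz hz' => ?_⟩
  rw [mul_assoc, ← h.comm l _ v hl, ← map_sub, LinearIsometry.norm_map]
  exact h2 z hz hz'

theorem mul_mem {α z : KK} (hα : α ∈ kS) (hz : z ∈ kS) : α * z ∈ kS := X.kk.mul_mem hα hz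

theorem small {α z : KK} {δ M : ℝ} (_hδ : 0 < δ) (hM : ‖(α : ℂ)‖ ≤ M) (M0 : 0 < M)
    (hz : ‖(z : ℂ)‖ ≤ δ / M) : ‖((α * z : KK) : ℂ)‖ ≤ δ := by
  have e : ((α * z : KK) : ℂ) = α * z := rfl
  rw [e, norm_mul]
  rw [le_div_iff₀ M0] at hz
  nlinarith [norm_nonneg (z : ℂ), norm_nonneg (α : ℂ)]

theorem lin (h : Rep U) (a b α : KK) (hα : α ∈ kS) (β : KK) (hβ : β ∈ kS) (v : H)
    (ha : v ∈ Hs U a) (hb : v ∈ Hs U b) : v ∈ Hs U (α * a + β * b) := fun η hη => by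
  obtain ⟨δ, h1, h2⟩ := ha (η / 2) (half_pos hη)
  obtain ⟨δ', h3, h4⟩ := hb (η / 2) (half_pos hη)
  have M0 : 0 < ‖(α : ℂ)‖ + ‖(β : ℂ)‖ + 1 := by positivity
  have d0 := lt_min h1 h3
  refine ⟨min δ δ' / (‖(α : ℂ)‖ + ‖(β : ℂ)‖ + 1), div_pos d0 M0, fun z hz hz' => ?_⟩
  have p1 := h2 _ (mul_mem hα hz) ((small d0 (by linarith [norm_nonneg (β : ℂ)]) M0 hz').trans
    (min_le_left _ _))
  have p2 := h4 _ (mul_mem hβ hz) ((small d0 (by linarith [norm_nonneg (α : ℂ)]) M0 hz').trans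
    (min_le_right _ _))
  have e : (α * a + β * b) * z = a * (α * z) + b * (β * z) := by ring
  have e2 : U (a * (α * z)) (U (b * (β * z)) v) - v =
      U (a * (α * z)) (U (b * (β * z)) v - v) + (U (a * (α * z)) v - v) := by
    rw [map_sub]; abel
  rw [e, h.add, e2]
  refine (norm_add_le _ _).trans ?_
  rw [LinearIsometry.norm_map]
  linarith

theorem sc1 (h : Rep U) (c α : KK) (hα : α ∈ kS) (v : H) (hv : v ∈ Hs U c) :
    v ∈ Hs U (α * c) := by
  simpa using lin h c c α hα 0 kS.zero_mem v hv hv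

theorem sc (h : Rep U) (c α : KK) (hα : α ∈ kS) (h0 : α ≠ 0) : Hs U (α * c) = Hs U c := by
  refine le_antisymm (fun v hv => ?_) fun v hv => sc1 h c α hα v hv
  have := sc1 h (α * c) α⁻¹ (X.kk.inv_mem hα) v hv
  rwa [inv_mul_cancel_left₀ h0] at this

variable [CompleteSpace H]

theorem mem (c : KK) (v : H) : Pj U c v ∈ Hs U c := (Hs U c).starProjection_apply_mem v

theorem orth (c : KK) (v w : H) (hw : w ∈ Hs U c) : ⟪v - Pj U c v, w⟫ = 0 :=
  Submodule.starProjection_inner_eq_zero v w hw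

theorem pjU (h : Rep U) (c a : KK) (v : H) : Pj U c (U a v) = U a (Pj U c v) := by
  refine Submodule.eq_starProjection_of_mem_of_inner_eq_zero (tr h c a _ (mem c v))
    fun w hw => ?_
  have e : w = U a (U (-a) w) := by rw [← h.add, add_neg_cancel, h.zero]
  rw [e, ← map_sub, LinearIsometry.inner_map_map]
  exact orth c v _ (tr h c _ w hw)

theorem pjH (h : Rep U) (c c' : KK) (v : H) (hv : v ∈ Hs U c') : Pj U c v ∈ Hs U c' :=
  fun η hη => by
    obtain ⟨δ, h1, h2⟩ := hv η hη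
    refine ⟨δ, h1, fun z hz hz' => ?_⟩
    rw [← pjU h, ← map_sub]
    exact ((Hs U c).norm_starProjection_apply_le _).trans (h2 z hz hz')

theorem pjP (h : Rep U) (c c' : KK) (v : H) :
    Pj U c (Pj U c' v) = Pj U c' (Pj U c v) := by
  have m1 : Pj U c (Pj U c' v) - Pj U c' (Pj U c v) ∈ Hs U c :=
    sub_mem (mem c _) (pjH h c' c _ (mem c v))
  have m2 : Pj U c (Pj U c' v) - Pj U c' (Pj U c v) ∈ Hs U c' :=
    sub_mem (pjH h c c' _ (mem c' v)) (mem c' _)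
  have a1 := orth c (Pj U c' v) _ m1
  have a2 := orth c' v _ m2
  have a3 := orth c' (Pj U c v) _ m2
  have a4 := orth c v _ m1
  rw [inner_sub_left] at a1 a2 a3 a4
  rw [← sub_eq_zero, ← inner_self_eq_zero (𝕜 := ℝ), inner_sub_left]
  linarith

theorem rotP (h : Rot U R) (l c : KK) (v : H) (hl : ‖(l : ℂ)‖ = 1) :
    Pj U (l * c) (R l v) = R l (Pj U c v) := by
  refine Submodule.eq_starProjection_of_mem_of_inner_eq_zero (rotH h l c hl _ (mem c v))
    fun w hw => ?_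
  have l0 : l ≠ 0 := by
    rintro rfl
    simp at hl
  have hi : ‖((l⁻¹ : KK) : ℂ)‖ = 1 := by
    have e : ((l⁻¹ : KK) : ℂ) = (l : ℂ)⁻¹ := rfl
    rw [e, norm_inv, hl, inv_one]
  have m := rotH h l⁻¹ (l * c) hi w hw
  rw [inv_mul_cancel_left₀ l0] at m
  rw [← h.inv l w hl, ← map_sub, LinearIsometry.inner_map_map]
  exact orth c v _ m

end HCx

theorem rowHC : RowHC := fun _ _ _ _ _ _ h =>
  ⟨HCx.mem, HCx.orth, fun _ _ hv => Submodule.starProjection_eq_self_iff.2 hv, HCx.tr h.rep,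
    HCx.pjU h.rep, HCx.pjH h.rep, HCx.pjP h.rep, HCx.rotH h, HCx.rotP h, HCx.lin h.rep,
    HCx.sc h.rep⟩

end Pool.Agent.MP_66cee2_co.DX
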