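import Pool.Agent.MP_66cee2_co.DY.Spec

/-! A rotation that is hyperbolic at the conjugate place. -/

namespace Pool.Agent.MP_66cee2_co.DX

open Filter Topology

noncomputable section

namespace MAx

/-- Rational vectors as real vectors. -/
def cv : (Fin 4 → ℚ) →+ Fin 4 → ℝ where
  toFun x := fun i => (x i : ℝ)
  map_zero' := by ext i; simp
  map_add' x y := by ext i; simp

theorem cv_apply (x : Fin 4 → ℚ) (i : Fin 4) : cv x i = (x i : ℝ) := rfl

theorem cv_inj : Function.Injective cv := fun x y h => by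
  ext i
  have h1 : (x i : ℝ) = y i := congrFun h i
  exact_mod_cast h1

theorem cv_dense : Dense (cv.range : Set (Fin 4 → ℝ)) := by
  have h : Dense (Set.pi Set.univ fun _ : Fin 4 => Set.range ((↑) : ℚ → ℝ)) :=
    dense_pi _ fun _ _ => Rat.denseRange_cast
  refine h.mono fun v hv => ?_
  choose x hx using fun i => hv i (Set.mem_univ i)
  exact ⟨x, funext hx⟩

/-- Multiplication by the rotation. -/
def mA {F : Type} [Field F] (a b D : F) (v : Fin 4 → F) : Fin 4 → F :=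
  ![-v 2, -v 3, v 0 + a * v 2 - b * D * v 3, v 1 + a * v 3 - b * v 2]

/-- Multiplication by the inverse rotation. -/
def mB {F : Type} [Field F] (a b D : F) (v : Fin 4 → F) : Fin 4 → F :=
  ![v 2 + a * v 0 - b * D * v 1, v 3 + a * v 1 - b * v 0, -v 0, -v 1]

theorem mA_mB {F : Type} [Field F] (a b D : F) (v : Fin 4 → F) : mA a b D (mB a b D v) = v := by
  ext i
  fin_cases i <;> simp [mA, mB]
  all_goals ring

theorem mA_cv (a b D : ℚ) (x : Fin 4 → ℚ) : mA (a : ℝ) b D (cv x) = cv (mA a b D x) := by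
  ext i
  fin_cases i <;> simp [mA, cv_apply]

theorem mB_cv (a b D : ℚ) (x : Fin 4 → ℚ) : mB (a : ℝ) b D (cv x) = cv (mB a b D x) := by
  ext i
  fin_cases i <;> simp [mB, cv_apply]

theorem mA_smul (a b D c : ℝ) (v : Fin 4 → ℝ) : mA a b D (c • v) = c • mA a b D v := by
  ext i
  fin_cases i <;> simp [mA]
  all_goals ring

theorem mB_smul (a b D c : ℝ) (v : Fin 4 → ℝ) : mB a b D (c • v) = c • mB a b D v := by
  ext i
  fin_cases i <;> simp [mB]
  all_goals ring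

theorem mA_cont (a b D : ℝ) : Continuous (mA a b D) := by
  refine continuous_pi fun i => ?_
  fin_cases i <;> simp [mA] <;> fun_prop

theorem mB_cont (a b D : ℝ) : Continuous (mB a b D) := by
  refine continuous_pi fun i => ?_
  fin_cases i <;> simp [mB] <;> fun_prop

theorem iter {A : (Fin 4 → ℝ) → Fin 4 → ℝ} (hA : ∀ (c : ℝ) v, A (c • v) = c • A v)
    {x : Fin 4 → ℝ} {α : ℝ} (h0 : 0 ≤ α) (h1 : α < 1) (hx : A x = α • x) :
    Tendsto (fun k => A^[k] x) atTop (𝓝 0) := by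
  have h : ∀ k : ℕ, A^[k] x = α ^ k • x := fun k => by
    induction k with
    | zero => simp
    | succ k ih => rw [Function.iterate_succ_apply', ih, hA, hx, smul_smul, pow_succ]
  simp only [h]
  simpa using (tendsto_pow_atTop_nhds_zero_of_lt_one h0 h1).smul_const x

theorem root {σ : ℝ} (h : 2 < σ) : ∃ α : ℝ, 0 < α ∧ α < 1 ∧ α ^ 2 - σ * α + 1 = 0 := by
  have h4 : 0 ≤ σ ^ 2 - 4 := by nlinarith
  have hs := Real.sq_sqrt h4
  have h0 := Real.sqrt_nonneg (σ ^ 2 - 4)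
  refine ⟨(σ - √(σ ^ 2 - 4)) / 2, ?_, ?_, by nlinarith⟩
  · have : √(σ ^ 2 - 4) < σ := Real.sqrt_lt' (by linarith) |>.2 (by linarith)
    linarith
  · have : σ - 2 < √(σ ^ 2 - 4) := Real.lt_sqrt_of_sq_lt (by nlinarith)
    linarith

/-- The number with given coordinates. -/
def el (r μ : KK) (x : Fin 4 → ℚ) : KK := x 0 + x 1 * r + μ * (x 2 + x 3 * r)

theorem el_add (r μ : KK) (x y : Fin 4 → ℚ) : el r μ (x + y) = el r μ x + el r μ y := by
  simp only [el, Pi.add_apply, Rat.cast_add]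
  ring

theorem el_mA {r μ : KK} {a b D : ℚ} (hr : r ^ 2 = D) (hμ : μ ^ 2 = (a - b * r) * μ - 1)
    (x : Fin 4 → ℚ) : el r μ (mA a b D x) = μ * el r μ x := by
  simp only [el, mA, Matrix.cons_val_zero, Matrix.cons_val_one, Matrix.cons_val]
  push_cast
  linear_combination (-(x 2 : KK) - x 3 * r) * hμ + (b * μ * x 3) * hr

variable {H : Type} [NormedAddCommGroup H] [InnerProductSpace ℝ H]

theorem sub_add {U : KK → H →ₗᵢ[ℝ] H} (hU : Rep U) (η : H) (e e' : KK) :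
    ‖U (e + e') η - η‖ ≤ ‖U e η - η‖ + ‖U e' η - η‖ := by
  have h : U (e + e') η - η = (U e η - η) + U e (U e' η - η) := by
    rw [map_sub, hU.add]; abel
  rw [h]
  refine (norm_add_le _ _).trans ?_
  rw [LinearIsometry.norm_map]

theorem rot_eq {U R : KK → H →ₗᵢ[ℝ] H} (hR : Rot U R) {η : H} {μ : KK} (hμ : ‖(μ : ℂ)‖ = 1)
    (hη : R μ η = η) (e : KK) : ‖U (μ * e) η - η‖ = ‖U e η - η‖ := by
  have h : U (μ * e) η - η = R μ (U e η - η) := by
    rw [map_sub, hR.comm μ e η hμ, hη]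
  rw [h, LinearIsometry.norm_map]

theorem small {U : KK → H →ₗᵢ[ℝ] H} {η : H} {c : KK} (h : η ∈ Hs U c) {ε : ℝ} (hε : 0 < ε) :
    ∃ δ : ℝ, 0 < δ ∧ ∀ q : ℚ, |(q : ℝ)| ≤ δ → ‖U (q * c) η - η‖ ≤ ε := by
  obtain ⟨δ, h1, h2⟩ := mem_Hs.1 h ε hε
  refine ⟨δ, h1, fun q hq => ?_⟩
  have e : ((q : KK) : ℂ) = (q : ℂ) := by simp
  rw [mul_comm]
  refine h2 q ?_ ?_
  · change ((q : KK) : ℂ) ∈ X.kk
    rw [e]
    exact SubfieldClass.ratCast_mem _ q
  · rw [e, ← Complex.ofReal_ratCast, Complex.norm_real, Real.norm_eq_abs]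
    exact hq

end MAx

open MAx in
theorem ofMA : OfMA := by
  intro _ h0 H _ _ _ U R hR η r μ D a b him hsq hre h1 hr hμ hτ hσ hη
  set ρ := (r : ℂ).re with hρ
  have hρ2 : ρ ^ 2 = D := by
    have h := congrArg Complex.re hsq
    rw [sq, Complex.mul_re, him, Complex.ratCast_re] at h
    linarith
  have hr2 : r ^ 2 = D := Subtype.ext (by simpa using hsq)
  have hμ0 : μ ≠ 0 := by
    rintro rfl
    simp at hμ
  have hμ2 : μ ^ 2 = (a - b * r) * μ - 1 := by
    rw [← hτ, add_mul, inv_mul_cancel₀ hμ0]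
    ring
  obtain ⟨α, α0, α1, hα⟩ := root hσ
  have hs : (1 - α ^ 2) ≠ 0 := by nlinarith
  let N : (Fin 4 → ℝ) → ℝ := fun v => ‖U (el r μ (Function.invFun cv v)) η - η‖
  have hN : ∀ x, N (cv x) = ‖U (el r μ x) η - η‖ := fun x => by
    simp only [N, Function.leftInverse_invFun cv_inj x]
  have hA : ∀ x, N (cv (mA a b D x)) = N (cv x) := fun x => by
    rw [hN, hN, el_mA hr2 hμ2, rot_eq hR hμ hη]
  have key := h0 (Fin 4 → ℝ) cv.range N (mA (a : ℝ) b D) (mB (a : ℝ) b D)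
    ((1 - α ^ 2)⁻¹ • ![ρ, -1, -(α * ρ), α]) ((1 - α ^ 2)⁻¹ • ![-(α ^ 2 * ρ), α ^ 2, α * ρ, -α])
    cv_dense (mA_cont _ _ _) (mB_cont _ _ _) ?_ ?_ ?_ ?_ ?_ ?_
  · intro ε hε
    obtain ⟨δ, hδ, h⟩ := key ε hε
    refine ⟨δ, hδ, fun q hq => ?_⟩
    have h2 := h (cv ![q, -1, 0, 0]) ⟨_, rfl⟩ ?_
    · have e : el r μ ![q, -1, 0, 0] = q - r := by
        simp only [el, Matrix.cons_val_zero, Matrix.cons_val_one, Matrix.cons_val]
        push_cast
        ring
      have e2 : U q η - U r η = U r (U (q - r) η - η) := by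
        rw [map_sub, ← hR.rep.add, add_sub_cancel]
      rw [hN, e] at h2
      rwa [e2, LinearIsometry.norm_map]
    · refine (pi_norm_le_iff_of_nonneg hδ.le).2 fun i => ?_
      have e : (1 - α ^ 2)⁻¹ • ![ρ, -1, -(α * ρ), α] +
          (1 - α ^ 2)⁻¹ • ![-(α ^ 2 * ρ), α ^ 2, α * ρ, -α] = ![ρ, -1, 0, 0] := by
        ext k
        fin_cases k <;> simp <;> field_simp <;> ring
      rw [e]
      fin_cases i <;> simp [cv_apply, hq, hδ.le]
  · rintro _ ⟨x, rfl⟩
    rw [mA_cv]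
    exact ⟨⟨_, rfl⟩, hA x⟩
  · rintro _ ⟨x, rfl⟩
    rw [mB_cv]
    refine ⟨⟨_, rfl⟩, ?_⟩
    rw [← hA, mA_mB]
  · rintro _ ⟨x, rfl⟩ _ ⟨y, rfl⟩
    rw [← map_add, hN, hN, hN, el_add]
    exact sub_add hR.rep η _ _
  · intro ε hε
    obtain ⟨δ, hδ, k1⟩ := small h1 (show 0 < ε / 4 by positivity)
    obtain ⟨δ', hδ', k2⟩ := small hr (show 0 < ε / 4 by positivity)
    refine ⟨min δ δ', lt_min hδ hδ', ?_⟩
    rintro _ ⟨x, rfl⟩ hx
    have hc : ∀ i, |(x i : ℝ)| ≤ min δ δ' := fun i => (norm_le_pi_norm (cv x) i).trans hx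
    have l0 := k1 (x 0) ((hc 0).trans (min_le_left _ _))
    have l1 := k2 (x 1) ((hc 1).trans (min_le_right _ _))
    have l2 := k1 (x 2) ((hc 2).trans (min_le_left _ _))
    have l3 := k2 (x 3) ((hc 3).trans (min_le_right _ _))
    rw [mul_one] at l0 l2
    have m1 := sub_add hR.rep η (x 0 + x 1 * r) (μ * (x 2 + x 3 * r))
    rw [rot_eq hR hμ hη] at m1
    rw [hN, el]
    linarith [sub_add hR.rep η (x 0) (x 1 * r), sub_add hR.rep η (x 2) (x 3 * r)]
  · refine iter (mA_smul _ _ _) α0.le α1 ?_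
    rw [mA_smul, smul_comm α]
    congr 1
    ext k
    fin_cases k <;> simp [mA]
    · linear_combination ρ * hα + (b * α) * hρ2
    · linear_combination -hα
  · refine iter (mB_smul _ _ _) α0.le α1 ?_
    rw [mB_smul, smul_comm α]
    congr 1
    ext k
    fin_cases k <;> simp [mB]
    · linear_combination (α * ρ) * hα + (b * α ^ 2) * hρ2
    · linear_combination -α * hα
    · ring
    · ring

end

end Pool.Agent.MP_66cee2_co.DX
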