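import Pool.Agent.MP_66cee2_co.DY.Spec

/-! Means of almost minimal norm are Cauchy. -/

namespace Pool.Agent.MP_66cee2_co.DX

noncomputable section

namespace MINx

variable {G : Type} {H : Type} [NormedAddCommGroup H] [InnerProductSpace ℝ H]

/-- The translate of a family. -/
def tr [AddCommGroup G] (t : G) (a : Wg G) : Wg G := ⟨a.N, a.c, fun i => t + a.p i⟩

/-- The midpoint of two families. -/
def mid (a b : Wg G) : Wg G :=
  ⟨a.N + b.N, fun i => if i < a.N then a.c i / 2 else b.c (i - a.N) / 2,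
    fun i => if i < a.N then a.p i else b.p (i - a.N)⟩

/-- The family with one point. -/
def one [AddCommGroup G] : Wg G := ⟨1, fun _ => 1, fun _ => 0⟩

theorem tr_av [AddCommGroup G] {U : G → H →ₗᵢ[ℝ] H} (hU : Rep U) (t : G) (a : Wg G) (v : H) :
    (tr t a).av U v = U t (a.av U v) := by
  simp only [Wg.av, tr, map_sum, map_smul, hU.add]

theorem mid_sum {E : Type} [AddCommMonoid E] (a b : Wg G) (f : ℝ → G → E) :
    ∑ i ∈ Finset.range (mid a b).N, f ((mid a b).c i) ((mid a b).p i) =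
      ∑ i ∈ Finset.range a.N, f (a.c i / 2) (a.p i) +
        ∑ i ∈ Finset.range b.N, f (b.c i / 2) (b.p i) := by
  simp only [mid]
  rw [Finset.sum_range_add]
  congr 1
  · refine Finset.sum_congr rfl fun i hi => ?_
    rw [if_pos (Finset.mem_range.1 hi), if_pos (Finset.mem_range.1 hi)]
  · refine Finset.sum_congr rfl fun i _ => ?_
    rw [if_neg (by omega), if_neg (by omega), Nat.add_sub_cancel_left]

theorem mid_ok {a b : Wg G} {S : Set G} (ha : a.Ok S) (hb : b.Ok S) : (mid a b).Ok S where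
  pos := fun i => by
    have h1 := ha.pos i
    have h2 := hb.pos (i - a.N)
    simp only [mid]
    split_ifs <;> positivity
  one := by
    have h := mid_sum a b fun c _ => c
    rw [h, ← Finset.sum_div, ← Finset.sum_div, ha.one, hb.one]
    norm_num
  mem := fun i => by
    simp only [mid]
    split_ifs
    exacts [ha.mem _, hb.mem _]

theorem mid_av (a b : Wg G) (U : G → H →ₗᵢ[ℝ] H) (v : H) :
    (mid a b).av U v = (1 / 2 : ℝ) • (a.av U v + b.av U v) := by
  have h := mid_sum a b fun c p => c • U p v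
  rw [Wg.av, h, smul_add, Wg.av, Wg.av, Finset.smul_sum, Finset.smul_sum]
  congr 1 <;> refine Finset.sum_congr rfl fun i _ => ?_ <;> rw [smul_smul] <;> congr 1 <;> ring

theorem par (x y : H) :
    ‖x - y‖ ^ 2 = 2 * ‖x‖ ^ 2 + 2 * ‖y‖ ^ 2 - 4 * ‖(1 / 2 : ℝ) • (x + y)‖ ^ 2 := by
  have h := parallelogram_law_with_norm ℝ x y
  rw [norm_smul, Real.norm_of_nonneg (by norm_num : (0 : ℝ) ≤ 1 / 2)]
  nlinarith [h]

theorem ok_mono {a : Wg G} {S S' : Set G} (ha : a.Ok S) (h : S ⊆ S') : a.Ok S' :=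
  ⟨ha.pos, ha.one, fun i => h (ha.mem i)⟩

end MINx

open MINx in
theorem rowMIN : RowMIN := by
  intro G _ S e e0 eadd H _ _ U hU T _ ξ
  set L : ℕ → Set G := fun j => {z | z ∈ S ∧ e z ≤ 1 / ((j : ℝ) + 1)} with hL
  set B : Wg G → ℝ := fun a => ∑ k, ‖a.av U (ξ k)‖ ^ 2 with hB
  set A : ℕ → ℝ := fun j => sInf (B '' {a | a.Ok (L j)}) with hA
  have h1 : ∀ j, (one : Wg G).Ok (L j) := fun j =>
    ⟨fun _ => zero_le_one, by simp [one], fun _ => ⟨S.zero_mem, by
      show e 0 ≤ _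
      rw [e0]; positivity⟩⟩
  have hbd : ∀ j, BddBelow (B '' {a | a.Ok (L j)}) := fun j =>
    ⟨0, by
      rintro _ ⟨a, -, rfl⟩
      exact Finset.sum_nonneg fun k _ => sq_nonneg _⟩
  have hle : ∀ j a, a.Ok (L j) → A j ≤ B a := fun j a ha => csInf_le (hbd j) ⟨a, ha, rfl⟩
  have hex : ∀ j : ℕ, ∃ a : Wg G, a.Ok (L j) ∧ B a < A j + 1 / ((j : ℝ) + 1) := fun j => by
    have hp : (0 : ℝ) < 1 / ((j : ℝ) + 1) := by positivity
    obtain ⟨_, ⟨a, ha, rfl⟩, h⟩ := exists_lt_of_csInf_lt (s := B '' {a | a.Ok (L j)})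
      ⟨_, one, h1 j, rfl⟩ (lt_add_of_pos_right (A j) hp)
    exact ⟨a, ha, h⟩
  choose c hc hcB using hex
  have hup : BddAbove (Set.range A) := ⟨B one, by
    rintro _ ⟨j, rfl⟩
    exact hle j _ (h1 j)⟩
  refine ⟨c, hc, fun η hη => ?_⟩
  have hδ : 0 < η ^ 2 / 8 := by positivity
  obtain ⟨_, ⟨M, rfl⟩, hM⟩ := exists_lt_of_lt_csSup (Set.range_nonempty A)
    (sub_lt_self (sSup (Set.range A)) hδ)
  obtain ⟨N₀, hN₀⟩ := exists_nat_one_div_lt hδ
  refine ⟨max N₀ (2 * M + 1), fun j j' hj hj' t ht het k => ?_⟩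
  set N := max N₀ (2 * M + 1) with hN
  have anti : ∀ p q : ℕ, p ≤ q → 1 / ((q : ℝ) + 1) ≤ 1 / ((p : ℝ) + 1) := fun p q h =>
    one_div_le_one_div_of_le (by positivity) (by exact_mod_cast Nat.succ_le_succ h)
  have hhalf : 1 / ((N : ℝ) + 1) + 1 / ((N : ℝ) + 1) ≤ 1 / ((M : ℝ) + 1) := by
    have h := anti (2 * M + 1) N (le_max_right _ _)
    have e1 : 1 / (((2 * M + 1 : ℕ) : ℝ) + 1) = 1 / ((M : ℝ) + 1) / 2 := by
      push_cast
      field_simp
      ring
    rw [e1] at h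
    linarith
  have hpos : 0 < 1 / ((N : ℝ) + 1) := by positivity
  have o1 : (c j).Ok (L M) := ok_mono (hc j) fun z hz =>
    ⟨hz.1, hz.2.trans ((anti N j hj).trans (by linarith))⟩
  have o2 : (tr t (c j')).Ok (L M) := ⟨(hc j').pos, (hc j').one, fun i =>
    ⟨S.add_mem ht ((hc j').mem i).1, by
      have h2 := ((hc j').mem i).2
      have h3 := eadd t ((c j').p i)
      have h4 := anti N j' hj'
      show e (t + (c j').p i) ≤ _
      linarith⟩⟩
  have o3 := hle M _ (mid_ok o1 o2)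
  have hsum : ∑ k, ‖(c j).av U (ξ k) - U t ((c j').av U (ξ k))‖ ^ 2 =
      2 * B (c j) + 2 * B (c j') - 4 * B (mid (c j) (tr t (c j'))) := by
    simp only [hB, Finset.mul_sum, ← Finset.sum_add_distrib, ← Finset.sum_sub_distrib]
    refine Finset.sum_congr rfl fun k _ => ?_
    rw [par, mid_av, tr_av hU, LinearIsometry.norm_map]
  have b1 := le_csSup hup (Set.mem_range_self j)
  have b2 := le_csSup hup (Set.mem_range_self j')
  have b3 := hcB j
  have b4 := hcB j'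
  have b5 := anti N j hj
  have b6 := anti N j' hj'
  have b7 := anti N₀ N (le_max_left _ _)
  have hk : ‖(c j).av U (ξ k) - U t ((c j').av U (ξ k))‖ ^ 2 ≤
      ∑ k, ‖(c j).av U (ξ k) - U t ((c j').av U (ξ k))‖ ^ 2 :=
    Finset.single_le_sum (f := fun k => ‖(c j).av U (ξ k) - U t ((c j').av U (ξ k))‖ ^ 2)
      (fun k _ => sq_nonneg _) (Finset.mem_univ k)
  exact (pow_le_pow_iff_left₀ (norm_nonneg _) hη.le two_ne_zero).1 (by linarith)

end

end Pool.Agent.MP_66cee2_co.DX
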