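import Pool.Agent.MP_66cee2_co.DY.Spec

/-! Means of almost minimal norm on the space of configurations. -/

namespace Pool.Agent.MP_66cee2_co.DX

open MeasureTheory Filter Topology Pool.Agent.MP_66cee2_co.XT
open scoped RealInnerProductSpace

namespace MNx

theorem sum_ae {Ω : Type} [MeasurableSpace Ω] {ν : Measure Ω} (v : ℕ → Lp ℝ 2 ν)
    (g : ℕ → Ω → ℝ) (c : ℕ → ℝ) (h : ∀ i, ⇑(v i) =ᵐ[ν] g i) (N : ℕ) :
    ⇑(∑ i ∈ Finset.range N, c i • v i) =ᵐ[ν] fun w => ∑ i ∈ Finset.range N, c i * g i w := by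
  induction N with
  | zero =>
    simp only [Finset.range_zero, Finset.sum_empty]
    exact Lp.coeFn_zero _ _ _
  | succ N ih =>
    rw [Finset.sum_range_succ]
    filter_upwards [Lp.coeFn_add (∑ i ∈ Finset.range N, c i • v i) (c N • v N),
      Lp.coeFn_smul (c N) (v N), ih, h N] with w h1 h2 h3 h4
    rw [h1, Pi.add_apply, h2, h3, Pi.smul_apply, h4, Finset.sum_range_succ, smul_eq_mul]

theorem int_sq {Ω : Type} [MeasurableSpace Ω] {ν : Measure Ω} (a b : Lp ℝ 2 ν) (f g : Ω → ℝ)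
    (ha : ⇑a =ᵐ[ν] f) (hb : ⇑b =ᵐ[ν] g) : ∫ w, (f w - g w) ^ 2 ∂ν = ‖a - b‖ ^ 2 := by
  rw [← real_inner_self_eq_norm_sq, L2.inner_def]
  refine integral_congr_ae ?_
  filter_upwards [Lp.coeFn_sub a b, ha, hb] with w h1 h2 h3
  rw [h1, Pi.sub_apply, h2, h3, real_inner_self_eq_norm_sq, Real.norm_eq_abs, sq_abs]

end MNx

theorem ofMN : OfMN := by
  intro hR hM M n C ε O₁ O₂ ν hν T _ ξ hξ
  obtain ⟨U, R, hU, -, -, hx⟩ := hR M n C ε O₁ O₂ ν hν
  obtain ⟨c, h1, h2⟩ := hM (GG M) (Hg M) (fun z => ‖em z‖) (by simp only [em_zero, norm_zero])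
    (fun a b => by simp only [em_add]; exact norm_add_le _ _) (Lp ℝ 2 ν) U hU T
    fun k => (hξ k).toLp _
  refine ⟨c, h1, fun t η hη => ?_⟩
  obtain ⟨N, hN⟩ := h2 (√η) (Real.sqrt_pos.2 hη)
  refine ⟨N, fun j j' hj hj' y hy y' hy' hd => ?_⟩
  have key : ∀ (a : Wg (GG M)) (z : GG M),
      ⇑(U z (a.av U ((hξ t).toLp _))) =ᵐ[ν] mn a (ξ t) z := by
    intro a z
    have e : U z (a.av U ((hξ t).toLp _)) =
        ∑ i ∈ Finset.range a.N, a.c i • U (z + a.p i) ((hξ t).toLp _) := by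
      rw [Wg.av, map_sum]
      exact Finset.sum_congr rfl fun i _ => by rw [map_smul, hU.add]
    rw [e]
    exact MNx.sum_ae _ _ _ (fun i => (hx (ξ t) (hξ t)).2 (z + a.p i)) a.N
  have h3 := hN j j' hj hj' (y' - y) ((Hg M).sub_mem hy' hy)
    (by simp only [em_sub]; rw [norm_sub_rev]; exact hd) t
  rw [MNx.int_sq _ _ _ _ (key (c j) y) (key (c j') y')]
  have e : U y' ((c j').av U ((hξ t).toLp _)) =
      U y (U (y' - y) ((c j').av U ((hξ t).toLp _))) := by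
    rw [← hU.add, add_sub_cancel]
  rw [e, ← map_sub, LinearIsometry.norm_map, ← Real.sq_sqrt hη.le]
  exact pow_le_pow_left₀ (norm_nonneg _) h3 2

end Pool.Agent.MP_66cee2_co.DX
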