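import Pool.Agent.MP_66cee2_co.DY.Spec
import Pool.Agent.MP_66cee2_co.XT.CORR

/-! Row PA: only the continuous part of a fixed vector contributes to the correlation. -/

namespace Pool.Agent.MP_66cee2_co.DX

open MeasureTheory Filter Topology Pool.Agent.MP_66cee2_co.XT
open scoped RealInnerProductSpace

namespace PAx

variable {H : Type} [NormedAddCommGroup H] [InnerProductSpace ℝ H] {U R : KK → H →ₗᵢ[ℝ] H}

theorem adj (h : Rep U) (a : KK) (v w : H) : ⟪U a v, w⟫ = ⟪v, U (-a) w⟫ := by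
  rw [← (U a).inner_map_map v, ← h.add, add_neg_cancel, h.zero]

theorem rotinv (h : Rot U R) {ζ ζ' : H} (hζ : Fix R ζ) (hζ' : Fix R ζ') {l : KK}
    (hl : ‖(l : ℂ)‖ = 1) (z : KK) : ⟪ζ', U (l * z) ζ⟫ = ⟪ζ', U z ζ⟫ := by
  rw [← (R l).inner_map_map ζ' (U z ζ), h.comm l z ζ hl, hζ l hl, hζ' l hl]

theorem swap (h : Rot U R) {ζ ζ' : H} (hζ : Fix R ζ) (hζ' : Fix R ζ') (z : KK) :
    ⟪ζ, U z ζ'⟫ = ⟪ζ', U z ζ⟫ := by
  rw [real_inner_comm, adj h.rep, ← neg_one_mul, rotinv h hζ hζ' (by simp)]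

theorem cont1 (hR : X.SRPD) (h : Rot U R) {ζ : H} (hζ : Fix R ζ) (c : KK) :
    ∃ ψ : ℂ → ℝ, Continuous ψ ∧ ∀ z ∈ kS, z ≠ 0 → ⟪ζ, U (c * z) ζ⟫ = ψ z := by
  have hpd : X.PD fun z : Fin 1 → KK => ((⟪ζ, U (c * z 0) ζ⟫ : ℝ) : ℂ) := by
    refine CORRA.pd_of_real (fun z : Fin 1 → KK => ⟪ζ, U (c * z 0) ζ⟫) (fun a b => ?_)
      fun S r => ?_
    · have := rotinv h hζ hζ (l := -1) (by simp) (c * (a - b) 0)
      rw [← this]
      congr 3
      simp only [Pi.sub_apply]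
      ring
    · refine (real_inner_self_nonneg (x := ∑ a ∈ S, r a • U (c * a 0) ζ)).trans_eq ?_
      rw [sum_inner]
      refine Finset.sum_congr rfl fun a _ => ?_
      rw [inner_sum]
      refine Finset.sum_congr rfl fun b _ => ?_
      rw [real_inner_smul_left, real_inner_smul_right, adj h.rep, ← h.rep.add, mul_assoc]
      congr 5
      simp only [Pi.sub_apply]
      ring
  obtain ⟨ψ, hψ, e⟩ := hR 1 _ hpd fun l z hl => by
    rw [Pi.mul_apply, mul_left_comm, rotinv h hζ hζ (hl 0)]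
  refine ⟨fun v => (ψ fun _ => v).re, Complex.continuous_re.comp (hψ.comp (by fun_prop)),
    fun z hz hz0 => ?_⟩
  have := congrArg Complex.re (e (fun _ => z) (fun _ => hz) fun _ => hz0)
  simpa using this

theorem cont2 (hR : X.SRPD) (h : Rot U R) {ξ ξ' : H} (hξ : Fix R ξ) (hξ' : Fix R ξ') (c : KK) :
    ∃ ψ : ℂ → ℝ, Continuous ψ ∧ ∀ z ∈ kS, z ≠ 0 → ⟪ξ', U (c * z) ξ⟫ = ψ z := by
  obtain ⟨ψ1, c1, e1⟩ := cont1 hR h hξ c
  obtain ⟨ψ2, c2, e2⟩ := cont1 hR h hξ' c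
  obtain ⟨ψ3, c3, e3⟩ := cont1 hR h (ζ := ξ + ξ') (fun l hl => by
    rw [map_add, hξ l hl, hξ' l hl]) c
  refine ⟨fun v => (ψ3 v - ψ1 v - ψ2 v) / 2, by fun_prop, fun z hz hz0 => ?_⟩
  have := e3 z hz hz0
  rw [map_add, inner_add_left, inner_add_right, inner_add_right, e1 z hz hz0, e2 z hz hz0,
    swap h hξ hξ'] at this
  linarith

theorem avg {G : Type} {a : Wg G} {S : Set G} (ha : a.Ok S) {f : G → ℝ} {L η : ℝ}
    (hf : ∀ p ∈ S, |f p - L| ≤ η) : |∑ i ∈ Finset.range a.N, a.c i * f (a.p i) - L| ≤ η := by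
  have e : ∑ i ∈ Finset.range a.N, a.c i * f (a.p i) - L =
      ∑ i ∈ Finset.range a.N, a.c i * (f (a.p i) - L) := by
    simp only [mul_sub, Finset.sum_sub_distrib, ← Finset.sum_mul, ha.one, one_mul]
  rw [e]
  refine (Finset.abs_sum_le_sum_abs _ _).trans ?_
  calc _ ≤ ∑ i ∈ Finset.range a.N, a.c i * η := Finset.sum_le_sum fun i _ => by
        rw [abs_mul, abs_of_nonneg (ha.pos i)]
        exact mul_le_mul_of_nonneg_left (hf _ (ha.mem i)) (ha.pos i)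
    _ = η := by rw [← Finset.sum_mul, ha.one, one_mul]

/-- means of a vector orthogonal to the continuous vectors tend to zero. -/
theorem means [CompleteSpace H] (hM : RowMIN) (h : Rep U) (hc : HC U R) (c : KK) (x₀ : H)
    (hx : ∀ w ∈ Hs U c, ⟪x₀, w⟫ = 0) :
    ∃ a : ℕ → Wg KK, (∀ j : ℕ, (a j).Ok {z | z ∈ kS ∧ ‖(z : ℂ)‖ ≤ 1 / ((j : ℝ) + 1)}) ∧
      Tendsto (fun j => (a j).av (fun z => U (c * z)) x₀) atTop (𝓝 0) := by
  have hrep : Rep fun z => U (c * z) :=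
    ⟨fun v => by rw [mul_zero, h.zero], fun a b v => by rw [mul_add, h.add]⟩
  obtain ⟨a, ha, hC⟩ := hM KK kS (fun z => ‖(z : ℂ)‖) (by simp)
    (fun a b => by simpa using norm_add_le (a : ℂ) b) H _ hrep Unit fun _ => x₀
  refine ⟨a, ha, ?_⟩
  set x : ℕ → H := fun j => (a j).av (fun z => U (c * z)) x₀ with hxd
  have hcau : CauchySeq x := by
    refine Metric.cauchySeq_iff.2 fun ε hε => ?_
    obtain ⟨N, hN⟩ := hC (ε / 2) (half_pos hε)
    refine ⟨N, fun j hj j' hj' => ?_⟩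
    have := hN j j' hj hj' 0 kS.zero_mem (by simp; positivity) ()
    rw [hrep.zero] at this
    rw [dist_eq_norm]
    exact this.trans_lt (half_lt_self hε)
  obtain ⟨y, hy⟩ := cauchySeq_tendsto_of_complete hcau
  have hyH : y ∈ Hs U c := by
    intro η hη
    obtain ⟨N, hN⟩ := hC η hη
    refine ⟨1 / ((N : ℝ) + 1), by positivity, fun z hz hzn => ?_⟩
    have ht : Tendsto (fun j => ‖x j - U (c * z) (x j)‖) atTop (𝓝 ‖y - U (c * z) y‖) :=
      (hy.sub (((U (c * z)).continuous.tendsto y).comp hy)).norm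
    rw [norm_sub_rev]
    exact le_of_tendsto ht ((eventually_ge_atTop N).mono fun j hj => hN j j hj hj z hz hzn ())
  have h0 : ∀ j, ⟪x j, y⟫ = 0 := fun j => by
    simp only [hxd, Wg.av, sum_inner, real_inner_smul_left]
    exact Finset.sum_eq_zero fun i _ => by rw [adj h, hx _ (hc.tr c _ y hyH), mul_zero]
  have h1 : Tendsto (fun j => ⟪x j, y⟫) atTop (𝓝 ⟪y, y⟫) := hy.inner tendsto_const_nhds
  simp only [h0] at h1
  have h2 : y = 0 := inner_self_eq_zero.1 (tendsto_nhds_unique h1 tendsto_const_nhds)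
  rwa [h2] at hy

end PAx

open PAx in
theorem ofPA : OfPA := by
  intro hR hM hH H _ _ _ U R h ξ ξ' hξ hξ' c _
  have hc := hH H U R h
  obtain ⟨ψ, hψ, e⟩ := cont2 hR h hξ hξ' c
  obtain ⟨a, ha, hlim⟩ := means hM h.rep hc c (ξ - Pj U c ξ) (hc.orth c ξ)
  have h1 : (1 : KK) ∈ kS := X.kk.one_mem
  rw [← sub_eq_zero, ← inner_sub_right, ← map_sub, ← abs_nonpos_iff]
  refine le_of_forall_pos_le_add fun η hη => ?_
  rw [zero_add]
  obtain ⟨δ₁, hδ₁, hd₁⟩ := Metric.continuous_iff.1 hψ 1 (η / 2) (half_pos hη)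
  obtain ⟨δ₂, hδ₂, hd₂⟩ := hc.mem c ξ (η / 2 / (‖ξ'‖ + 1)) (by positivity)
  have key : ∀ p ∈ kS, ‖(p : ℂ)‖ < min (min δ₁ δ₂) 1 →
      |⟪ξ', U c (U (c * p) (ξ - Pj U c ξ))⟫ - ⟪ξ', U c (ξ - Pj U c ξ)⟫| ≤ η := by
    intro p hp hn
    simp only [lt_min_iff] at hn
    have hne : (1 : KK) + p ≠ 0 := by
      intro h0
      have : p = -1 := eq_neg_of_add_eq_zero_right h0
      rw [this] at hn
      simp at hn
    have e1 := e _ (kS.add_mem h1 hp) hne
    have e2 := e _ h1 one_ne_zero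
    rw [mul_add, mul_one, h.rep.add] at e1
    rw [mul_one] at e2
    have b1 := hd₁ ((1 + p : KK) : ℂ) (by simpa [dist_eq_norm] using hn.1.1)
    rw [Real.dist_eq] at b1
    have b2 := abs_real_inner_le_norm ξ' (U c (U (c * p) (Pj U c ξ) - Pj U c ξ))
    rw [LinearIsometry.norm_map, map_sub, inner_sub_right] at b2
    have b3 := hd₂ p hp hn.1.2.le
    rw [le_div_iff₀ (by positivity)] at b3
    simp only [map_sub, inner_sub_right]
    rw [e1, e2]
    have e3 : ((1 : KK) : ℂ) = 1 := rfl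
    rw [e3]
    have b4 := norm_nonneg (U (c * p) (Pj U c ξ) - Pj U c ξ)
    rw [abs_le] at b2 ⊢
    rw [abs_lt] at b1
    constructor <;> nlinarith [b1.1, b1.2, b2.1, b2.2]
  have ht : Tendsto (fun j => |⟪ξ', U c ((a j).av (fun z => U (c * z)) (ξ - Pj U c ξ))⟫ -
      ⟪ξ', U c (ξ - Pj U c ξ)⟫|) atTop (𝓝 |⟪ξ', U c 0⟫ - ⟪ξ', U c (ξ - Pj U c ξ)⟫|) :=
    ((tendsto_const_nhds.inner (((U c).continuous.tendsto 0).comp hlim)).sub_const _).abs
  rw [map_zero, inner_zero_right, zero_sub, abs_neg] at ht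
  refine le_of_tendsto ht ?_
  have hs : ∀ᶠ j : ℕ in atTop, 1 / ((j : ℝ) + 1) < min (min δ₁ δ₂) 1 :=
    tendsto_one_div_add_atTop_nhds_zero_nat.eventually (gt_mem_nhds (by positivity))
  filter_upwards [hs] with j hj
  have := avg (ha j) (f := fun p => ⟪ξ', U c (U (c * p) (ξ - Pj U c ξ))⟫)
    fun p hp => key p hp.1 (hp.2.trans_lt hj)
  simpa only [Wg.av, map_sum, map_smul, inner_sum, real_inner_smul_right] using this

end Pool.Agent.MP_66cee2_co.DX
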