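import Pool.Agent.MP_66cee2_co.DY.Spec

/-! The continuous part is fixed by the rotations whose real part lies in a quadratic field. -/

namespace Pool.Agent.MP_66cee2_co.DX

open scoped RealInnerProductSpace

namespace PLx

theorem rat_kS (p : ℚ) : (p : KK) ∈ kS := by
  show ((p : KK) : ℂ) ∈ X.kk
  rw [SubfieldClass.coe_ratCast]
  exact SubfieldClass.ratCast_mem _ p

/-- the field generated by a square root of a rational number. -/
def FS (r : KK) (D : ℚ) (h : r * r = D) : Subfield KK where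
  carrier := {x | ∃ p q : ℚ, x = p + q * r}
  mul_mem' := by
    rintro _ _ ⟨p, q, rfl⟩ ⟨p', q', rfl⟩
    refine ⟨p * p' + q * q' * D, p * q' + q * p', ?_⟩
    push_cast
    linear_combination (q * q' : KK) * h
  one_mem' := ⟨1, 0, by simp⟩
  add_mem' := by
    rintro _ _ ⟨p, q, rfl⟩ ⟨p', q', rfl⟩
    refine ⟨p + p', q + q', ?_⟩
    push_cast
    ring
  zero_mem' := ⟨0, 0, by simp⟩
  neg_mem' := by
    rintro _ ⟨p, q, rfl⟩
    refine ⟨-p, -q, ?_⟩
    push_cast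
    ring
  inv_mem' := by
    rintro _ ⟨p, q, rfl⟩
    by_cases h0 : (p : KK) + q * r = 0
    · exact ⟨0, 0, by simp [h0]⟩
    have e : ((p : KK) + q * r) * (p - q * r) = ((p ^ 2 - q ^ 2 * D : ℚ) : KK) := by
      push_cast
      linear_combination (-(q : KK) ^ 2) * h
    by_cases h1 : p ^ 2 - q ^ 2 * D = 0
    · rw [h1, Rat.cast_zero] at e
      have e2 : (p : KK) + q * r = ((2 * p : ℚ) : KK) := by
        have := (mul_eq_zero.1 e).resolve_left h0
        push_cast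
        linear_combination -this
      exact ⟨(2 * p)⁻¹, 0, by rw [e2]; simp⟩
    · refine ⟨p / (p ^ 2 - q ^ 2 * D), -q / (p ^ 2 - q ^ 2 * D), ?_⟩
      have h2 : ((p ^ 2 - q ^ 2 * D : ℚ) : KK) ≠ 0 := Rat.cast_ne_zero.2 h1
      refine inv_eq_of_mul_eq_one_right ?_
      rw [Rat.cast_div, Rat.cast_div, Rat.cast_neg]
      field_simp
      linear_combination e

section

variable {H : Type} [NormedAddCommGroup H] [InnerProductSpace ℝ H] [CompleteSpace H]
  {U R : KK → H →ₗᵢ[ℝ] H} {r : KK} {D : ℚ}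

/-- continuity along two lines. -/
def W (U : KK → H →ₗᵢ[ℝ] H) (r c : KK) (v : H) : Prop := v ∈ Hs U c ∧ v ∈ Hs U (c * r)

theorem W.add (hc : HC U R) {a b : KK} {v : H} (ha : W U r a v) (hb : W U r b v) :
    W U r (a + b) v := by
  have h1 := hc.lin a b 1 (by simpa using rat_kS 1) 1 (by simpa using rat_kS 1) v ha.1 hb.1
  have h2 := hc.lin _ _ 1 (by simpa using rat_kS 1) 1 (by simpa using rat_kS 1) v ha.2 hb.2
  rw [one_mul, one_mul] at h1 h2
  exact ⟨h1, by rwa [add_mul]⟩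

theorem W.mul (hc : HC U R) (h : r * r = D) {α a : KK} {v : H} (hα : α ∈ FS r D h)
    (ha : W U r a v) : W U r (α * a) v := by
  obtain ⟨p, q, rfl⟩ := hα
  have h1 := hc.lin _ _ _ (rat_kS p) _ (rat_kS q) v ha.1 ha.2
  have h2 := hc.lin _ _ _ (rat_kS (q * D)) _ (rat_kS p) v ha.1 ha.2
  constructor
  · rwa [show ((p : KK) + q * r) * a = p * a + q * (a * r) by ring]
  · rwa [show ((p : KK) + q * r) * a * r = ((q * D : ℚ) : KK) * a + p * (a * r) by
      push_cast; linear_combination (q * a : KK) * h]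

theorem W.cancel (hc : HC U R) (h : r * r = D) {α a : KK} {v : H} (hα : α ∈ FS r D h)
    (h0 : α ≠ 0) (ha : W U r (α * a) v) : W U r a v := by
  have := W.mul hc h ((FS r D h).inv_mem hα) ha
  rwa [inv_mul_cancel_left₀ h0] at this

omit [CompleteSpace H] in
theorem uniq {ξ a b : H} (ha : ⟪ξ - a, a - b⟫ = 0) (hb : ⟪ξ - b, a - b⟫ = 0) : a = b := by
  have h : ⟪a - b, a - b⟫ = 0 := by
    rw [show ⟪a - b, a - b⟫ = ⟪(ξ - b) - (ξ - a), a - b⟫ by congr 1; abel, inner_sub_left, ha, hb,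
      sub_zero]
  exact sub_eq_zero.1 (inner_self_eq_zero.1 h)

theorem fam (hc : HC U R) (hT : RowTWO) {ξ : H} (hξ : Fix R ξ) (hP : Pj U 1 ξ ∈ Hs U r)
    (ν : ℕ → KK) (hν : ∀ j, ‖(ν j : ℂ)‖ = 1)
    (hW : ∀ i j k v, i ≠ j → W U r (ν i) v → W U r (ν j) v → W U r (ν k) v) (i j : ℕ) :
    Pj U (ν i) ξ = Pj U (ν j) ξ := by
  have e : ∀ j, Pj U (ν j) ξ = R (ν j) (Pj U 1 ξ) := fun j => by
    rw [← hc.rotP _ _ _ (hν j), mul_one, hξ _ (hν j)]
  have hη : ∀ j, Pj U (ν j) ξ ∈ Hs U (ν j * r) := fun j => by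
    rw [e]; exact hc.rotH _ _ (hν j) _ hP
  have hζ : ∀ i j k, i ≠ j → Pj U (ν i) (Pj U (ν j) ξ) ∈ Hs U (ν k) := fun i j k hij =>
    (hW i j k _ hij ⟨hc.mem _ _, by rw [hc.pjP]; exact hc.pjH _ _ _ (hη i)⟩
      ⟨hc.pjH _ _ _ (hc.mem _ _), hc.pjH _ _ _ (hη j)⟩).1
  have ho : ∀ i j m, (∀ k, m ∈ Hs U (ν k)) → ⟪ξ - Pj U (ν i) (Pj U (ν j) ξ), m⟫ = 0 := by
    intro i j m hm
    rw [← sub_add_sub_cancel ξ (Pj U (ν j) ξ), inner_add_left, hc.orth _ _ _ (hm j),
      hc.orth _ _ _ (hm i), add_zero]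
  set ζ := Pj U (ν 0) (Pj U (ν 1) ξ) with hz
  have hζ0 : ∀ k, ζ ∈ Hs U (ν k) := fun k => hζ 0 1 k zero_ne_one
  have hu : ∀ i j, i ≠ j → Pj U (ν i) (Pj U (ν j) ξ) = ζ := fun i j hij =>
    have hm : ∀ k, Pj U (ν i) (Pj U (ν j) ξ) - ζ ∈ Hs U (ν k) := fun k =>
      (Hs U (ν k)).sub_mem (hζ i j k hij) (hζ0 k)
    uniq (ho i j _ hm) (ho 0 1 _ hm)
  have h5 : ⟪ξ, ζ⟫ = ‖ζ‖ ^ 2 := by
    have := ho 0 1 ζ hζ0
    rw [inner_sub_left, real_inner_self_eq_norm_sq] at this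
    linarith
  have h4 : ∀ j, ⟪Pj U (ν j) ξ, ζ⟫ = ‖ζ‖ ^ 2 := fun j => by
    have := hc.orth (ν j) ξ ζ (hζ0 j)
    rw [inner_sub_left] at this
    linarith
  have key := hT H ξ ζ (fun j => Pj U (ν j) ξ) (fun j => by
    have := hc.orth (ν j) ξ _ (hc.mem (ν j) ξ)
    rw [inner_sub_left, real_inner_self_eq_norm_sq] at this
    linarith) (fun j => by simp only [e, LinearIsometry.norm_map]) (fun i j hij => by
    have := hc.orth (ν i) (Pj U (ν j) ξ) _ (hc.mem (ν i) ξ)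
    rw [hu i j hij, inner_sub_left, real_inner_comm, real_inner_comm _ ζ, h4 i] at this
    linarith) h4 h5
  exact (key i).trans (key j).symm

theorem circ (hc : HC U R) (h : r * r = D) {g τ : KK} {γ T : ℝ} (hg : (g : ℂ) = γ * Complex.I)
    (hτ : (τ : ℂ) = T) (hT : 0 < T) (hs : g * g ∈ FS r D h) (hF : τ ∈ FS r D h) :
    (∀ j : ℕ, ‖(((1 + g * (j * τ)) / (1 - g * (j * τ)) : KK) : ℂ)‖ = 1) ∧
    ∀ (i j k : ℕ) (v : H), i ≠ j → W U r ((1 + g * (i * τ)) / (1 - g * (i * τ))) v →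
      W U r ((1 + g * (j * τ)) / (1 - g * (j * τ))) v →
      W U r ((1 + g * (k * τ)) / (1 - g * (k * τ))) v := by
  have hτ0 : τ ≠ 0 := fun e => by
    rw [e] at hτ
    have : (T : ℂ) = 0 := by simpa using hτ.symm
    exact hT.ne' (by exact_mod_cast this)
  have hn : ∀ i j : ℕ, (1 - g * g * (i * τ) * (j * τ) : KK) ≠ 0 := fun i j e => by
    have h1 := congrArg (fun x : KK => (x : ℂ).re) e
    simp [hg, hτ] at h1
    have : 0 ≤ γ * γ * (i * T) * (j * T) := by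
      have := mul_self_nonneg γ
      positivity
    linarith
  have hd : ∀ j : ℕ, (1 - g * (j * τ) : KK) ≠ 0 := fun j e => hn j j (by
    linear_combination (1 + g * (j * τ)) * e)
  have ht : ∀ j : ℕ, (j * τ : KK) ∈ FS r D h := fun j => mul_mem (natCast_mem _ j) hF
  have hm : ∀ i j : ℕ, (1 - g * g * (i * τ) * (j * τ) : KK) ∈ FS r D h := fun i j =>
    sub_mem (one_mem _) (mul_mem (mul_mem hs (ht i)) (ht j))
  have hp : ∀ j : ℕ, (1 + g * g * (j * τ) * (j * τ) : KK) ∈ FS r D h := fun j =>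
    add_mem (one_mem _) (mul_mem (mul_mem hs (ht j)) (ht j))
  have e : ∀ j : ℕ, (1 - g * g * (j * τ) * (j * τ)) * ((1 + g * (j * τ)) / (1 - g * (j * τ))) =
      (1 + g * g * (j * τ) * (j * τ)) * 1 + (2 * (j * τ)) * g := fun j => by
    rw [← mul_div_assoc, div_eq_iff (hd j)]
    ring
  refine ⟨fun j => ?_, fun i j k v hij hi hj => ?_⟩
  · have h0 : ((1 - g * (j * τ) : KK) : ℂ) ≠ 0 := fun e => hd j (Subtype.ext e)
    have h1 : ((1 + g * (j * τ) : KK) : ℂ) = starRingEnd ℂ ((1 - g * (j * τ) : KK) : ℂ) := by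
      simp [hg, hτ]
    rw [Subfield.coe_div, norm_div, h1, Complex.norm_conj, div_self (norm_ne_zero_iff.2 h0)]
  · have hi' := W.mul hc h (hm i i) hi
    have hj' := W.mul hc h (hm j j) hj
    rw [e] at hi' hj'
    have hδ : (j * τ - i * τ) * (1 - g * g * (i * τ) * (j * τ)) ∈ FS r D h :=
      mul_mem (sub_mem (ht j) (ht i)) (hm i j)
    have hδ0 : (j * τ - i * τ) * (1 - g * g * (i * τ) * (j * τ)) ≠ 0 := by
      refine mul_ne_zero ?_ (hn i j)
      rw [← sub_mul]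
      exact mul_ne_zero (sub_ne_zero.2 (by exact_mod_cast hij.symm)) hτ0
    have w1 : W U r 1 v := by
      refine W.cancel hc h hδ hδ0 ?_
      have := W.add hc (W.mul hc h (ht j) hi') (W.mul hc h (neg_mem (ht i)) hj')
      exact (congrArg (fun c => W U r c v) (by ring)).mp this
    have wg : W U r g v := by
      refine W.cancel hc h (mul_mem (ofNat_mem _ 2) hδ) (mul_ne_zero two_ne_zero hδ0) ?_
      have := W.add hc (W.mul hc h (neg_mem (hp j)) hi') (W.mul hc h (hp i) hj')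
      exact (congrArg (fun c => W U r c v) (by ring)).mp this
    refine W.cancel hc h (hm k k) (hn k k) ?_
    rw [e]
    exact W.add hc (W.mul hc h (hp k) w1) (W.mul hc h (mul_mem (ofNat_mem _ 2) (ht k)) wg)

end

end PLx

open PLx in
theorem ofPL : OfPL := by
  intro hH hT H _ _ _ U R hR ξ hξ r μ D p q hr hD hP hμ hx
  have hc := hH H U R hR
  have h : r * r = D := Subtype.ext (by
    rw [SubfieldClass.coe_ratCast, ← hD, sq]; rfl)
  rw [← hc.rotP _ _ _ hμ, hξ _ hμ]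
  have hn : (μ : ℂ).re ^ 2 + (μ : ℂ).im ^ 2 = 1 := by
    have := Complex.sq_norm (μ : ℂ)
    rw [hμ, Complex.normSq_apply] at this
    linarith
  set x : KK := p + q * r with hxd
  have hxc : (x : ℂ) = ((μ : ℂ).re : ℝ) := by
    refine Complex.ext ?_ ?_ <;> simp [hxd, hx, hr]
  have hxF : x ∈ FS r D h := ⟨p, q, rfl⟩
  by_cases h0 : (μ : ℂ).im = 0
  · have h1 : ∃ s : ℚ, s ≠ 0 ∧ μ = s := by
      have : ((μ : ℂ).re - 1) * ((μ : ℂ).re + 1) = 0 := by rw [h0] at hn; linarith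
      rcases mul_eq_zero.1 this with e | e
      · exact ⟨1, one_ne_zero, Subtype.ext (Complex.ext (by simp; linarith) (by simp [h0]))⟩
      · exact ⟨-1, by norm_num, Subtype.ext (Complex.ext (by simp; linarith) (by simp [h0]))⟩
    obtain ⟨s, hs, rfl⟩ := h1
    have e := hc.sc 1 s (rat_kS s) (Rat.cast_ne_zero.2 hs)
    have hm : Pj U (s * 1) ξ - Pj U 1 ξ ∈ Hs U 1 :=
      (Hs U 1).sub_mem (e ▸ hc.mem _ _) (hc.mem _ _)
    exact uniq (hc.orth _ _ _ (e ▸ hm)) (hc.orth _ _ _ hm)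
  have h1 : 0 < 1 + (μ : ℂ).re := by
    have : 0 < (μ : ℂ).im ^ 2 := by positivity
    nlinarith
  have hg : ((μ - x : KK) : ℂ) = (μ : ℂ).im * Complex.I := by
    rw [Subfield.coe_sub, hxc]
    refine Complex.ext ?_ ?_ <;> simp
  have hτ : (((1 + x)⁻¹ : KK) : ℂ) = ((1 + (μ : ℂ).re)⁻¹ : ℝ) := by
    rw [Subfield.coe_inv, Subfield.coe_add, hxc]; simp
  have hq : (μ - x) * (μ - x) = x * x - 1 := Subtype.ext (by
    rw [Subfield.coe_mul, hg, Subfield.coe_sub, Subfield.coe_mul, hxc]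
    refine Complex.ext ?_ ?_
    · simp; nlinarith
    · simp)
  have hx1 : 1 + x ≠ 0 := fun e => by
    have := congrArg (fun y : KK => (y : ℂ).re) e
    simp [hxc] at this
    linarith
  obtain ⟨hu, hW⟩ := circ hc h hg hτ (inv_pos.2 h1)
    (by rw [hq]; exact sub_mem (mul_mem hxF hxF) (one_mem _))
    (inv_mem (add_mem (one_mem _) hxF))
  have := fam hc hT hξ hP _ hu hW 1 0
  have e : (1 + (μ - x) * ((1 : ℕ) * (1 + x)⁻¹)) / (1 - (μ - x) * ((1 : ℕ) * (1 + x)⁻¹)) = μ := by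
    have h2 : 1 - (μ - x) * ((1 : ℕ) * (1 + x)⁻¹) ≠ 0 := fun e => by
      have := hu 1
      rw [e, div_zero] at this
      simp at this
    rw [div_eq_iff h2]
    field_simp
    push_cast
    linear_combination hq
  rw [e] at this
  simpa using this

end Pool.Agent.MP_66cee2_co.DX
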