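import Pool.Agent.MP_66cee2_co.DY.Spec
import Pool.Agent.MP_66cee2_co.XT.PW

/-! Row PW1: pointwise facts about limits of the averaged fields. -/

namespace Pool.Agent.MP_66cee2_co.DX

open MeasureTheory Filter Topology Matrix Pool.Agent.MP_66cee2_co.XT

noncomputable section

namespace PWx

open PWA

variable {ι : Type} {M n : ℕ}

/-- The points of the average. -/
def yy (c : ℕ → Wg (GG M)) (q : ℕ → Ec (M + 1) → GG M) (j i : ℕ) (v : Ec (M + 1)) : GG M :=
  q j v + (c j).p i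

theorem PK_eq [Fintype ι] (χ : Ec (M + 1) → ℝ) (F : Eu n → ι → ℝ) (c : ℕ → Wg (GG M))
    (q : ℕ → Ec (M + 1) → GG M) (j : ℕ) (v : Ec (M + 1)) (w : Om KK (M + 1) n) :
    PK χ F c q j v w = Q (Finset.range (c j).N)
      (fun i => (c j).c i * χ (ps w (em (yy c q j i v)))) fun i => F (w.2.2 (yy c q j i v)) := by
  ext a b
  simp only [PK, Q, mn, ev, xi, yy, Matrix.of_apply, Matrix.sum_apply, Matrix.smul_apply,
    vecMulVec_apply, smul_eq_mul]
  refine Finset.sum_congr rfl fun i _ => ?_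
  ring

theorem near_ev {c : ℕ → Wg (GG M)} {q : ℕ → Ec (M + 1) → GG M} (hc : Sm c) (hq : Pt1 q)
    {σ : ℕ → ℕ} (hσ : Tendsto σ atTop atTop) {δ : ℝ} (hδ : 0 < δ) :
    ∀ᶠ k in atTop, ∀ i v, Rl v → ‖em (yy c q (σ k) i v) - v‖ ≤ δ := by
  obtain ⟨N, hN⟩ := hq.near (δ / 2) (half_pos hδ)
  obtain ⟨N', hN'⟩ := exists_nat_one_div_lt (half_pos hδ)
  filter_upwards [hσ.eventually_ge_atTop N, hσ.eventually_ge_atTop N'] with k hk hk' i v hv
  have h1 := hN _ hk v hv
  have h2 : ‖em ((c (σ k)).p i)‖ ≤ 1 / ((σ k : ℝ) + 1) := ((hc (σ k)).mem i).2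
  have h3 : 1 / ((σ k : ℝ) + 1) ≤ 1 / ((N' : ℝ) + 1) := Nat.one_div_le_one_div hk'
  have e : em (yy c q (σ k) i v) - v = (em (q (σ k) v) - v) + em ((c (σ k)).p i) := by
    rw [yy, em_add]
    abel
  have h4 := norm_add_le (em (q (σ k) v) - v) (em ((c (σ k)).p i))
  rw [e]
  linarith

theorem mem_ev {c : ℕ → Wg (GG M)} {q : ℕ → Ec (M + 1) → GG M} (hc : Sm c) (hq : Pt1 q)
    {σ : ℕ → ℕ} (hσ : Tendsto σ atTop atTop) {w : Om KK (M + 1) n} (hw : ∀ j, ‖w.2.1 j‖ = 1)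
    {O : Set (Ec (M + 1))} (hO : IsOpen O) {v : Ec (M + 1)} (hr : Rl v) (hv : ps w v ∈ O) :
    ∀ᶠ k in atTop, ∀ i, ps w (em (yy c q (σ k) i v)) ∈ O := by
  obtain ⟨r, hr', hsub⟩ := Metric.isOpen_iff.mp hO _ hv
  filter_upwards [near_ev hc hq hσ (half_pos hr')] with k hk i
  refine hsub ?_
  rw [Metric.mem_ball, dist_eq_norm, ps_sub, norm_rot hw]
  exact (hk i v hr).trans_lt (half_lt_self hr')

end PWx

open PWA PWx in
theorem rowPW1 : RowPW1 := by
  intro M n C ε O₁ O₂ ν ι _ J g F χ c q σ hL hW hs hq hσ hO₁ hO₂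
  have hχ : ∀ a, 0 ≤ χ a := fun a => by
    obtain ⟨κ, hκ, h⟩ := hW.low ‖a‖
    exact hκ.le.trans (h a le_rfl)
  have hc : ∀ (j i : ℕ) (a : Ec (M + 1)), 0 ≤ (c j).c i * χ a := fun j i a =>
    mul_nonneg ((hs j).pos i) (hχ a)
  have hpsd : ∀ (j : ℕ) (v : Ec (M + 1)) (w : Om KK (M + 1) n),
      (PK χ F c q j v w).PosSemidef := by
    intro j v w
    rw [PK_eq]
    exact Q_psd _ _ _ fun i => hc j i _
  have cq : Continuous fun M : Matrix ι ι ℝ => M *ᵥ g :=
    continuous_id.matrix_mulVec continuous_const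
  have cd : Continuous fun M : Matrix ι ι ℝ => g ⬝ᵥ M *ᵥ g := continuous_const.dotProduct cq
  have ct : Continuous fun M : Matrix ι ι ℝ => (M * J).trace :=
    (continuous_id.matrix_mul continuous_const).matrix_trace
  refine ⟨hpsd, fun w hw v P hr hP => ?_⟩
  have hP1 : Tendsto (fun k => PK χ F c q (σ k) v w) atTop (𝓝 P) :=
    tendsto_pi_nhds.2 fun a => tendsto_pi_nhds.2 fun b => hP a b
  have hd := (cd.tendsto P).comp hP1
  refine ⟨⟨psd_lim (fun k => hpsd _ _ _) hP1, ?_, ?_⟩, fun v' P' hr' hP' hv hv' => ?_⟩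
  · refine tendsto_nhds_unique ((ct.tendsto P).comp hP1) (hd.congr fun k => ?_)
    simp only [Function.comp_apply]
    rw [PK_eq, Q_dot _ _ _ _ fun i => hL.one _, Q_trace _ _ _ _ fun i => ?_]
    rw [hL.ip]
    simp
  · obtain ⟨κ, hκ, h⟩ := hW.low (‖ps w v‖ + 1)
    refine hκ.trans_le (ge_of_tendsto hd ?_)
    filter_upwards [PWx.near_ev hs hq hσ one_pos] with k hk
    simp only [Function.comp_apply]
    rw [PK_eq, Q_dot _ _ _ _ fun i => hL.one _]
    have h1 : ∀ i, κ ≤ χ (ps w (em (yy c q (σ k) i v))) := by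
      intro i
      refine h _ ?_
      have h2 : ‖ps w (em (yy c q (σ k) i v)) - ps w v‖ ≤ 1 := by
        rw [ps_sub, norm_rot hw.1]
        exact hk i v hr
      have h3 := norm_sub_norm_le (ps w (em (yy c q (σ k) i v))) (ps w v)
      linarith
    calc κ = ∑ i ∈ Finset.range (c (σ k)).N, (c (σ k)).c i * κ := by
          rw [← Finset.sum_mul, (hs (σ k)).one, one_mul]
      _ ≤ _ := Finset.sum_le_sum fun i _ =>
          mul_le_mul_of_nonneg_left (h1 i) ((hs (σ k)).pos i)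
  · have hP2 : Tendsto (fun k => PK χ F c q (σ k) v' w) atTop (𝓝 P') :=
      tendsto_pi_nhds.2 fun a => tendsto_pi_nhds.2 fun b => hP' a b
    have hd' := (cd.tendsto P').comp hP2
    have hB := pair_lim J g hP1 hP2
    have key : ∀ η : ℝ, 0 < η → ∀ᶠ k in atTop, ∀ i i',
        ‖w.2.2 (yy c q (σ k) i v) - w.2.2 (yy c q (σ k) i' v')‖ ≤ ‖v - v'‖ + 2 * η - ε := by
      intro η hη
      filter_upwards [PWx.near_ev hs hq hσ hη, PWx.mem_ev hs hq hσ hw.1 hO₁ hr hv,
        PWx.mem_ev hs hq hσ hw.1 hO₂ hr' hv'] with k hk h1 h2 i i'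
      refine (hw.2.2.2 _ _ (h1 i) (h2 i')).trans ?_
      have e : em (yy c q (σ k) i v) - em (yy c q (σ k) i' v') =
          (v - v') + ((em (yy c q (σ k) i v) - v) - (em (yy c q (σ k) i' v') - v')) := by abel
      have h3 := norm_add_le (v - v')
        ((em (yy c q (σ k) i v) - v) - (em (yy c q (σ k) i' v') - v'))
      have h4 := norm_sub_le (em (yy c q (σ k) i v) - v) (em (yy c q (σ k) i' v') - v')
      have h5 := hk i v hr
      have h6 := hk i' v' hr'
      rw [e]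
      linarith
    have main : ∀ η : ℝ, 0 < η → 0 ≤ ‖v - v'‖ + 2 * η - ε ∧
        (g ⬝ᵥ P *ᵥ g) * (g ⬝ᵥ P' *ᵥ g) * (1 - (‖v - v'‖ + 2 * η - ε) ^ 2) ≤
          (P *ᵥ g) ⬝ᵥ J *ᵥ (P' *ᵥ g) := by
      intro η hη
      constructor
      · obtain ⟨k, hk⟩ := (key η hη).exists
        exact (norm_nonneg _).trans (hk 0 0)
      · refine le_of_tendsto_of_tendsto ((hd.mul hd').mul_const _) hB ?_
        filter_upwards [key η hη] with k hk
        simp only [Function.comp_apply]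
        rw [PK_eq, PK_eq]
        refine Q_pair _ _ _ _ _ _ g J _ (fun i => hc _ _ _) (fun i => hc _ _ _)
          (fun i => hL.one _) (fun i => hL.one _) fun i _ i' _ => ?_
        rw [hL.ip]
        exact sub_le_sub_left (pow_le_pow_left₀ (norm_nonneg _) (hk i i') 2) 1
    constructor
    · refine le_of_forall_pos_le_add fun η hη => ?_
      have := (main (η / 2) (half_pos hη)).1
      linarith
    · have c3 : Continuous fun η : ℝ =>
          (g ⬝ᵥ P *ᵥ g) * (g ⬝ᵥ P' *ᵥ g) * (1 - (‖v - v'‖ + 2 * η - ε) ^ 2) := by fun_prop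
      have h1 := (c3.tendsto 0).mono_left (nhdsWithin_le_nhds (s := Set.Ioi 0))
      rw [mul_zero, add_zero] at h1
      refine le_of_tendsto h1 ?_
      filter_upwards [self_mem_nhdsWithin] with η hη
      exact (main η hη).2

end

end Pool.Agent.MP_66cee2_co.DX
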