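import Pool.Agent.MP_66cee2_co.DY.Spec

/-! The representation on the square integrable functions of the configurations. -/

namespace Pool.Agent.MP_66cee2_co.DX

open MeasureTheory Filter Topology Pool.Agent.MP_66cee2_co.XT

noncomputable section

namespace REPx

variable {M n : ℕ}

theorem mv_mv (a l a' l' : GG M) (w : Om KK (M + 1) n) :
    mv a' l' (mv a l w) = mv (a + l * a') (l * l') w := by
  refine Prod.ext (ps_mv a l a' w) (Prod.ext ?_ ?_)
  · funext j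
    simp only [mv, Pi.mul_apply, Subfield.coe_mul, mul_assoc]
  · funext z
    simp only [mv, mul_add, add_assoc, mul_assoc]

theorem mv_zero_one (w : Om KK (M + 1) n) : mv (0 : GG M) 1 w = w := by
  refine Prod.ext ?_ (Prod.ext ?_ ?_)
  · simp only [mv]
    ext j
    simp [ps, rot]
  · funext j
    simp [mv]
  · funext z
    simp [mv]

theorem un1_one : Un1 (1 : GG M) := ⟨fun j => by simp, fun _ => rfl⟩

theorem un1_rl {l : KK} (h : ‖(l : ℂ)‖ = 1) : Un1 (rl l : GG M) := by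
  refine ⟨fun j => ?_, fun j => by simp [rl]⟩
  refine Fin.cases ?_ (fun j => ?_) j
  · simpa [rl] using h
  · simp [rl]

theorem un1_mul {l l' : GG M} (h : Un1 l) (h' : Un1 l') : Un1 (l * l') := by
  refine ⟨fun j => ?_, fun j => ?_⟩
  · rw [Pi.mul_apply, Subfield.coe_mul, norm_mul, h.1 j, h'.1 j, one_mul]
  · rw [Pi.mul_apply, h.2 j, h'.2 j, one_mul]

theorem rl_mul_inv {l : KK} (h : ‖(l : ℂ)‖ = 1) : (rl l * rl l⁻¹ : GG M) = 1 := by
  have h0 : l ≠ 0 := by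
    rintro rfl
    simp at h
  funext j
  refine Fin.cases ?_ (fun j => ?_) j
  · simp [rl, h0]
  · simp [rl]

variable {C ε : ℝ} {O₁ O₂ : Set (Ec (M + 1))} {ν : Measure (Om KK (M + 1) n)}

/-- The isometry given by a change of the frame. -/
def T (h : Sy1 C ε O₁ O₂ ν) (a l : GG M) (hl : Un1 l) : Lp ℝ 2 ν →ₗᵢ[ℝ] Lp ℝ 2 ν :=
  Lp.compMeasurePreservingₗᵢ ℝ (mv a l) (h.inv a l hl)

theorem T_ae (h : Sy1 C ε O₁ O₂ ν) (a l : GG M) (hl : Un1 l) (v : Lp ℝ 2 ν) :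
    ⇑(T h a l hl v) =ᵐ[ν] fun w => v (mv a l w) :=
  Lp.coeFn_compMeasurePreserving v (h.inv a l hl)

theorem T_congr (h : Sy1 C ε O₁ O₂ ν) {a l a' l' : GG M} (hl : Un1 l) (hl' : Un1 l')
    (e : a = a') (e' : l = l') (v : Lp ℝ 2 ν) : T h a l hl v = T h a' l' hl' v := by
  subst e e'
  rfl

theorem T_T (h : Sy1 C ε O₁ O₂ ν) (a l a' l' : GG M) (hl : Un1 l) (hl' : Un1 l')
    (v : Lp ℝ 2 ν) :
    T h a l hl (T h a' l' hl' v) = T h (a + l * a') (l * l') (un1_mul hl hl') v := by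
  refine Lp.ext ?_
  have h1 := (h.inv a l hl).quasiMeasurePreserving.ae_eq_comp (T_ae h a' l' hl' v)
  filter_upwards [T_ae h a l hl (T h a' l' hl' v), h1,
    T_ae h (a + l * a') (l * l') (un1_mul hl hl') v] with w e1 e2 e3
  rw [e1, e3, ← mv_mv]
  exact e2

theorem T_zero (h : Sy1 C ε O₁ O₂ ν) (v : Lp ℝ 2 ν) : T h 0 1 un1_one v = v := by
  refine Lp.ext ?_
  filter_upwards [T_ae h 0 1 un1_one v] with w e1
  rw [e1, mv_zero_one]

theorem T_ev (h : Sy1 C ε O₁ O₂ ν) (a l : GG M) (hl : Un1 l) (ξ : Ec (M + 1) × Eu n → ℝ)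
    (hξ : MemLp (ev ξ (0 : GG M)) 2 ν) : ⇑(T h a l hl (hξ.toLp _)) =ᵐ[ν] ev ξ a := by
  have h1 := (h.inv a l hl).quasiMeasurePreserving.ae_eq_comp hξ.coeFn_toLp
  filter_upwards [T_ae h a l hl (hξ.toLp _), h1] with w e1 e2
  rw [e1]
  refine e2.trans ?_
  rw [Function.comp_apply, ev_mv, mul_zero, add_zero]

end REPx

open REPx in
theorem rowREP : RowREP := by
  classical
  intro M n C ε O₁ O₂ ν h
  refine ⟨fun z => T h z 1 un1_one,
    fun l => if hl : ‖(l : ℂ)‖ = 1 then T h 0 (rl l) (un1_rl hl) else LinearIsometry.id,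
    ⟨T_zero h, fun a b v => ?_⟩, fun l z v hl => ?_, fun l v hl => ?_, fun ξ hξ =>
      ⟨fun l hl => ?_, fun z => T_ev h z 1 un1_one ξ hξ⟩⟩
  · rw [T_T]
    exact T_congr h _ _ (by rw [one_mul]) (by rw [one_mul]) v
  · simp only [dif_pos hl]
    rw [T_T, T_T]
    exact T_congr h _ _ (by rw [zero_add, mul_zero, add_zero]) (by rw [mul_one, one_mul]) v
  · have hl' : ‖((l⁻¹ : KK) : ℂ)‖ = 1 := by
      rw [Subfield.coe_inv, norm_inv, hl, inv_one]
    simp only [dif_pos hl, dif_pos hl']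
    rw [T_T]
    exact (T_congr h _ un1_one (by rw [mul_zero, add_zero]) (rl_mul_inv hl) v).trans (T_zero h v)
  · simp only [dif_pos hl]
    exact Lp.ext ((T_ev h 0 (rl l) (un1_rl hl) ξ hξ).trans hξ.coeFn_toLp.symm)

end

end Pool.Agent.MP_66cee2_co.DX
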