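import Pool.Agent.MP_66cee2_co.DY.Spec

/-! The correlation is uniformly continuous on the points with rational squared norm. -/

namespace Pool.Agent.MP_66cee2_co.DX

open MeasureTheory Filter Topology Matrix Pool.Agent.MP_66cee2_co.XT
open scoped RealInnerProductSpace

namespace RPx

/-- A rotation with real part in `ℚ(r)` that is hyperbolic at the conjugate place. -/
theorem exists_mu (r : KK) (hi : (r : ℂ).im = 0) (hp : 0 < (r : ℂ).re) :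
    ∃ (μ : KK) (a b : ℚ), ‖(μ : ℂ)‖ = 1 ∧ μ + μ⁻¹ = a - b * r ∧ 2 < a + b * (r : ℂ).re ∧
      (μ : ℂ).re = ((a / 2 : ℚ) : ℝ) + ((-b / 2 : ℚ) : ℝ) * (r : ℂ).re := by
  obtain ⟨a, ha1, ha2⟩ := exists_rat_btwn (show (2 : ℝ) < 3 by norm_num)
  obtain ⟨b, hb1, hb2⟩ := exists_rat_btwn
    (show (1 : ℝ) / (r : ℂ).re < 2 / (r : ℂ).re by gcongr; norm_num)
  rw [div_lt_iff₀ hp] at hb1
  rw [lt_div_iff₀ hp] at hb2
  have hr : (r : ℂ) = (((r : ℂ).re : ℝ) : ℂ) := Complex.ext (by simp) (by simp [hi])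
  generalize hρ : (r : ℂ).re = ρ at *
  obtain ⟨τ, hτ⟩ : ∃ τ : ℝ, τ = a - b * ρ := ⟨_, rfl⟩
  have h0 : 0 ≤ 1 - τ ^ 2 / 4 := by
    have h1 : 0 < τ := by linarith
    have h2 : τ < 2 := by linarith
    nlinarith
  obtain ⟨s, hs⟩ : ∃ s : ℝ, s ^ 2 = 1 - τ ^ 2 / 4 := ⟨_, Real.sq_sqrt h0⟩
  have hc : (s : ℂ) ^ 2 = 1 - (τ : ℂ) ^ 2 / 4 := by exact_mod_cast hs
  obtain ⟨t, ht⟩ : ∃ t : KK, t = a - b * r := ⟨_, rfl⟩
  have htc : (t : ℂ) = τ := by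
    rw [ht, hτ]
    push_cast
    rw [← hr]
  have hsK : (s : ℂ) ∈ KK := by
    refine mem_KK_of_sq ?_
    rw [hc, ← htc]
    exact KK.sub_mem KK.one_mem (KK.div_mem (KK.pow_mem t.2 2) (ofNat_mem KK 4))
  have hI : Complex.I ∈ KK := by
    refine mem_KK_of_sq ?_
    rw [Complex.I_sq]
    exact KK.neg_mem KK.one_mem
  obtain ⟨μ, hμ⟩ : ∃ μ : KK, (μ : ℂ) = (τ / 2 : ℝ) + s * Complex.I := by
    refine ⟨⟨(t : ℂ) / 2 + s * Complex.I,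
      KK.add_mem (KK.div_mem t.2 (ofNat_mem KK 2)) (KK.mul_mem hsK hI)⟩, ?_⟩
    rw [Complex.ofReal_div, Complex.ofReal_ofNat, ← htc]
  have hm : μ * (t - μ) = 1 := by
    apply Subtype.ext
    push_cast
    rw [hμ, htc]
    push_cast
    linear_combination (-Complex.I ^ 2) * hc - (1 - (τ : ℂ) ^ 2 / 4) * Complex.I_sq
  refine ⟨μ, a, b, ?_, ?_, by linarith, ?_⟩
  · rw [hμ, Complex.norm_add_mul_I, Real.sqrt_eq_one]
    linarith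
  · rw [inv_eq_of_mul_eq_one_right hm, ← ht]
    ring
  · rw [hμ]
    simp only [Complex.add_re, Complex.ofReal_re, Complex.mul_re, Complex.I_re, Complex.ofReal_im,
      Complex.I_im]
    rw [hτ]
    push_cast
    ring

variable {H : Type} [NormedAddCommGroup H] [InnerProductSpace ℝ H] [CompleteSpace H]
  {U R : KK → H →ₗᵢ[ℝ] H}

/-- Continuity at the point `r` along the rationals. -/
theorem key (hHC : RowHC) (hPL : RowPL) (hSQ : RowSQ) (hMA : RowMA) (h : Rot U R) {ξ : H}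
    (hξ : Fix R ξ) (r : KK) (D : ℚ) (hi : (r : ℂ).im = 0) (hD : (r : ℂ) ^ 2 = D)
    (hp : 0 < (r : ℂ).re) {ε : ℝ} (hε : 0 < ε) {κ : ℝ} (hκ : 0 < κ) :
    ∃ q : ℚ, |q - (r : ℂ).re| ≤ κ ∧ ‖U q (Pj U 1 ξ) - U r (Pj U 1 ξ)‖ ≤ ε := by
  have hc := hHC H U R h
  have hr0 : r ≠ 0 := by
    rintro rfl
    simp at hp
  have h1 : Pj U 1 ξ ∈ Hs U r := by
    rw [← hSQ H U R h ξ hξ r D hi hD hr0]
    exact hc.mem r ξ
  obtain ⟨μ, a, b, m1, m2, m3, m4⟩ := exists_mu r hi hp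
  have h2 := hPL H U R h ξ hξ r μ D (a / 2) (-b / 2) hi hD h1 m1 m4
  obtain ⟨δ, d1, d2⟩ := hMA H U R h _ r μ D a b hi hD hp (hc.mem 1 ξ) h1 m1 m2 m3 h2 ε hε
  obtain ⟨q, q1, q2⟩ := exists_rat_btwn
    (show (r : ℂ).re < (r : ℂ).re + min δ κ by linarith [lt_min d1 hκ])
  have q3 : |q - (r : ℂ).re| ≤ min δ κ := by
    rw [abs_of_pos (by linarith)]
    linarith
  exact ⟨q, q3.trans (min_le_right _ _), d2 q (q3.trans (min_le_left _ _))⟩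

/-- The correlation only depends on the norm and on the continuous part. -/
theorem rad (hPA : RowPA) (hSQ : RowSQ) (h : Rot U R) {ξ ξ' : H} (hξ : Fix R ξ) (hξ' : Fix R ξ')
    (z : KK) (hz : z ≠ 0) (D : ℚ) (hD : ‖(z : ℂ)‖ ^ 2 = D) :
    ∃ r : KK, (r : ℂ).im = 0 ∧ (r : ℂ) ^ 2 = D ∧ (r : ℂ).re = ‖(z : ℂ)‖ ∧ 0 < (r : ℂ).re ∧
      ⟪ξ', U z ξ⟫ = ⟪ξ', U r (Pj U 1 ξ)⟫ := by
  have hc : ((‖(z : ℂ)‖ : ℝ) : ℂ) ^ 2 = D := by exact_mod_cast hD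
  have hK : ((‖(z : ℂ)‖ : ℝ) : ℂ) ∈ KK := by
    refine mem_KK_of_sq ?_
    rw [hc]
    exact SubfieldClass.ratCast_mem KK D
  have hz' : (z : ℂ) ≠ 0 := by exact_mod_cast hz
  have hp : 0 < ‖(z : ℂ)‖ := norm_pos_iff.2 hz'
  obtain ⟨r, hr⟩ : ∃ r : KK, (r : ℂ) = ((‖(z : ℂ)‖ : ℝ) : ℂ) := ⟨⟨_, hK⟩, rfl⟩
  have hr0 : r ≠ 0 := by
    rintro rfl
    exact hp.ne' (Complex.ofReal_eq_zero.1 hr.symm)
  have hi : (r : ℂ).im = 0 := by rw [hr, Complex.ofReal_im]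
  have hD' : (r : ℂ) ^ 2 = D := by rw [hr, hc]
  have hl : ‖((z / r : KK) : ℂ)‖ = 1 := by
    push_cast
    rw [norm_div, hr, Complex.norm_real, norm_norm, div_self hp.ne']
  refine ⟨r, hi, hD', by rw [hr, Complex.ofReal_re], by rwa [hr, Complex.ofReal_re], ?_⟩
  rw [← hSQ H U R h ξ hξ r D hi hD' hr0, ← hPA H U R h ξ ξ' hξ hξ' r hr0,
    ← (R (z / r)).inner_map_map ξ' (U r ξ), h.comm _ _ _ hl, hξ _ hl, hξ' _ hl,
    div_mul_cancel₀ _ hr0]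

end RPx

theorem ofRP : OfRP := by
  intro hHC hPA hPL hSQ hMA H _ _ _ U R h ξ hξ η hη
  obtain ⟨δ, d1, d2⟩ := mem_Hs.1 ((hHC H U R h).mem 1 ξ) (η / 3) (by positivity)
  refine ⟨δ / 2, by positivity, ?_⟩
  rintro ξ' hξ' z z' hz hz' ⟨D, hD⟩ ⟨D', hD'⟩ hn
  obtain ⟨r, r1, r2, r3, r4, r5⟩ := RPx.rad hPA hSQ h hξ hξ' z hz D hD
  obtain ⟨r', s1, s2, s3, s4, s5⟩ := RPx.rad hPA hSQ h hξ hξ' z' hz' D' hD'
  obtain ⟨q, q1, q2⟩ := RPx.key hHC hPL hSQ hMA h hξ r D r1 r2 r4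
    (show 0 < η / 3 by positivity) (show 0 < δ / 4 by positivity)
  obtain ⟨q', p1, p2⟩ := RPx.key hHC hPL hSQ hMA h hξ r' D' s1 s2 s4
    (show 0 < η / 3 by positivity) (show 0 < δ / 4 by positivity)
  rw [r5, s5, ← inner_sub_right]
  generalize Pj U 1 ξ = v at *
  rw [r3] at q1
  rw [s3] at p1
  have e : (((q - q' : ℚ) : KK) : ℂ) = ((q - q' : ℚ) : ℂ) := by norm_cast
  have hm : ((q - q' : ℚ) : KK) ∈ kS := by
    change (((q - q' : ℚ) : KK) : ℂ) ∈ X.kk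
    rw [e]
    exact SubfieldClass.ratCast_mem X.kk _
  have hq : ‖(((q - q' : ℚ) : KK) : ℂ)‖ ≤ δ := by
    rw [e, Complex.norm_ratCast]
    push_cast
    rw [abs_le] at q1 p1 hn ⊢
    constructor <;> linarith [q1.1, q1.2, p1.1, p1.2, hn.1, hn.2]
  have h3 := d2 _ hm hq
  have h4 : ‖U q v - U q' v‖ ≤ η / 3 := by
    have e2 : (q : KK) = q' + 1 * ((q - q' : ℚ) : KK) := by
      push_cast
      ring
    rw [e2, h.rep.add, ← map_sub, LinearIsometry.norm_map]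
    exact h3
  have h5 : ‖U r v - U r' v‖ ≤ η := by
    have e3 : U r v - U r' v = (U q v - U q' v) + (U q' v - U r' v) - (U q v - U r v) := by abel
    have h6 := norm_sub_le ((U q v - U q' v) + (U q' v - U r' v)) (U q v - U r v)
    have h7 := norm_add_le (U q v - U q' v) (U q' v - U r' v)
    rw [e3]
    linarith
  calc |⟪ξ', U r v - U r' v⟫| ≤ ‖ξ'‖ * ‖U r v - U r' v‖ := abs_real_inner_le_norm _ _
    _ ≤ ‖ξ'‖ * η := by gcongr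
    _ = η * ‖ξ'‖ := mul_comm _ _

end Pool.Agent.MP_66cee2_co.DX
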