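import Pool.Agent.MP_66cee2_co.DY.Spec

/-! Row SP: a rational point near a unit vector is close to a unit vector with the same tail. -/

namespace Pool.Agent.MP_66cee2_co.DX

open Filter Topology Pool.Agent.MP_66cee2_co.XT

namespace SPx

variable {M : ℕ}

/-- one minus the square of the norm of the tail. -/
noncomputable def hh (v : Ec (M + 1)) : ℝ := 1 - ∑ j : Fin M, ‖v j.succ‖ ^ 2

theorem cont_hh : Continuous (hh : Ec (M + 1) → ℝ) := by
  unfold hh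
  fun_prop

theorem norm_split (v : Ec (M + 1)) : ‖v‖ ^ 2 = ‖v 0‖ ^ 2 + ∑ j : Fin M, ‖v j.succ‖ ^ 2 := by
  rw [EuclideanSpace.norm_sq_eq, Fin.sum_univ_succ]

theorem rat_sq {x : ℂ} (h : x ∈ X.kk) : ∃ D : ℚ, ‖x‖ ^ 2 = D := by
  obtain ⟨⟨a, ha⟩, b, hb⟩ := h
  exact ⟨a * a + b * b, by rw [Complex.sq_norm, Complex.normSq_apply, ha, hb]; push_cast; ring⟩

end SPx

open SPx in
theorem rowSP : RowSP := by
  intro M u hu h0 δ hδ
  have hu0 : hh u = ‖u 0‖ ^ 2 := by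
    have := norm_split u
    rw [hu] at this
    rw [hh]; linarith
  have hpos : 0 < hh u := by rw [hu0]; positivity
  have c0 : Continuous fun v : Ec (M + 1) => v 0 := by fun_prop
  have cG : Continuous fun v : Ec (M + 1) => |‖v 0‖ - √(hh v)| :=
    (c0.norm.sub cont_hh.sqrt).abs
  have e1 : ∀ᶠ v in 𝓝 u, v 0 ≠ 0 := c0.continuousAt.eventually_ne h0
  have e2 : ∀ᶠ v in 𝓝 u, 0 < hh v := cont_hh.continuousAt.eventually (lt_mem_nhds hpos)
  have e3 : ∀ᶠ v in 𝓝 u, |‖v 0‖ - √(hh v)| < δ :=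
    cG.continuousAt.eventually (gt_mem_nhds (by
      show |‖u 0‖ - √(hh u)| < δ
      rw [hu0, Real.sqrt_sq (norm_nonneg _), sub_self, abs_zero]; exact hδ))
  obtain ⟨r, hr, hb⟩ := Metric.eventually_nhds_iff.1 ((e1.and e2).and e3)
  refine ⟨r / 2, half_pos hr, fun z hz hzu => ?_⟩
  obtain ⟨⟨a1, a2⟩, a3⟩ := hb (y := em z) (by rw [dist_eq_norm]; linarith)
  choose D hD using fun j => rat_sq (x := (z j : ℂ)) (hz.1 j)
  have hq : hh (em z) = ((1 - ∑ j : Fin M, D j.succ : ℚ) : ℝ) := by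
    rw [hh]; simp only [em_apply, hD]; push_cast; rfl
  have hs : √(hh (em z)) ^ 2 = hh (em z) := Real.sq_sqrt a2.le
  have hm : ((√(hh (em z)) : ℝ) : ℂ) ∈ KK := by
    refine mem_KK_of_sq (X.kk_le_KK ?_)
    rw [← Complex.ofReal_pow, hs]
    exact ⟨⟨_, by rw [Complex.ofReal_re, hq]⟩, 0, by simp⟩
  have hn : ‖((√(hh (em z)) : ℝ) : ℂ)‖ = √(hh (em z)) := by
    rw [Complex.norm_real, Real.norm_of_nonneg (Real.sqrt_nonneg _)]
  let z' : GG M := Fin.cons ⟨_, hm⟩ fun j => z j.succ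
  have z0 : (z' 0 : ℂ) = ((√(hh (em z)) : ℝ) : ℂ) := rfl
  have zs : ∀ j : Fin M, z' j.succ = z j.succ := fun _ => rfl
  refine ⟨z', ⟨fun j => (zs j).symm, fun e => a1 (by rw [em_apply, e]; rfl), fun e => ?_,
    ⟨D 0, hD 0⟩, ⟨_, by rw [z0, hn, hs, hq]⟩, by rw [z0, hn]; exact a3.le⟩, ?_, fun j => ?_⟩
  · have : ‖(z' 0 : ℂ)‖ = 0 := by rw [e]; simp
    rw [z0, hn] at this
    exact (Real.sqrt_pos.2 a2).ne' this
  · have : ‖em z'‖ ^ 2 = 1 := by
      rw [norm_split, em_apply, z0, hn, hs, hh]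
      simp only [em_apply, zs]
      ring
    exact (pow_eq_one_iff_of_nonneg (norm_nonneg _) two_ne_zero).1 this
  · rw [em_apply, zs]
    exact hz.2 j

end Pool.Agent.MP_66cee2_co.DX
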