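import Pool.Agent.MP_66cee2_co.DY.Spec

/-! The continuous parts along `ℚ(i)` and `r ℚ(i)` agree. -/

namespace Pool.Agent.MP_66cee2_co.DX

open scoped RealInnerProductSpace

namespace SQx

theorem hI : Complex.I ∈ X.kk := ⟨⟨0, by simp⟩, 1, by simp⟩

theorem hq (q : ℚ) : (q : KK) ∈ kS := ⟨⟨q, by simp⟩, 0, by simp⟩

/-- The imaginary unit. -/
noncomputable def iK : KK := ⟨Complex.I, X.kk_le_KK hI⟩

theorem dpos {r : KK} {D : ℚ} (h1 : (r : ℂ).im = 0) (h2 : (r : ℂ) ^ 2 = D) (h3 : r ≠ 0) :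
    (r : ℂ).re ^ 2 = D ∧ 0 < D := by
  have e : (r : ℂ).re ^ 2 = D := by
    have := congrArg Complex.re h2
    simpa [pow_two, h1] using this
  have h4 : (r : ℂ).re ≠ 0 := fun h => h3 (Subtype.ext (Complex.ext h h1))
  have h5 : (0 : ℝ) < D := by rw [← e]; positivity
  exact ⟨e, by exact_mod_cast h5⟩

variable {H : Type} [NormedAddCommGroup H] [InnerProductSpace ℝ H] [CompleteSpace H]

theorem claimA (hHC : RowHC) (hPL : RowPL) {U R : KK → H →ₗᵢ[ℝ] H} (hR : Rot U R) {ξ : H}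
    (hξ : Fix R ξ) {r : KK} {D : ℚ} (h1 : (r : ℂ).im = 0) (h2 : (r : ℂ) ^ 2 = D) (h3 : r ≠ 0) :
    Pj U 1 ξ ∈ Hs U r := by
  have hc := hHC H U R hR
  obtain ⟨e, hD⟩ := dpos h1 h2 h3
  obtain ⟨t, ht⟩ : ∃ t : ℚ, t = (1 - D) / (1 + D) := ⟨_, rfl⟩
  obtain ⟨s, hs⟩ : ∃ s : ℚ, s = 2 / (1 + D) := ⟨_, rfl⟩
  have hts : t ^ 2 + s ^ 2 * D = 1 := by
    rw [ht, hs]
    field_simp
    ring
  have hs0 : s ≠ 0 := by rw [hs]; positivity
  obtain ⟨l, hl⟩ : ∃ l : KK, l = (t : KK) + iK * (s : KK) * r := ⟨_, rfl⟩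
  have hc' : (l : ℂ) = (t : ℂ) + Complex.I * (s : ℂ) * (r : ℂ) := by
    rw [hl]; simp [iK]
  have hre : (l : ℂ).re = t := by rw [hc']; simp [h1]
  have him : (l : ℂ).im = s * (r : ℂ).re := by rw [hc']; simp [h1]
  have hn : ‖(l : ℂ)‖ = 1 := by
    refine (pow_left_inj₀ (norm_nonneg _) zero_le_one two_ne_zero).1 ?_
    have h6 : ((t : ℝ)) ^ 2 + (s : ℝ) ^ 2 * D = 1 := by exact_mod_cast hts
    rw [Complex.sq_norm, Complex.normSq_apply, hre, him]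
    linear_combination h6 + (s : ℝ) ^ 2 * e
  have hfix := hPL H U R hR ξ hξ 1 l 1 t 0 (by simp) (by simp) (hc.mem 1 ξ) hn (by simp [hre])
  have hm : Pj U 1 ξ ∈ Hs U (l * 1) := hfix ▸ hc.rotH l 1 hn _ (hc.mem 1 ξ)
  have hi0 : iK ≠ 0 := fun h => Complex.I_ne_zero (congrArg Subtype.val h)
  have hsK : (s : KK) ≠ 0 := by exact_mod_cast hs0
  have hα : (iK * (s : KK))⁻¹ ∈ kS := X.kk.inv_mem (X.kk.mul_mem hI (hq s))
  have hβ : -((t : KK) * (iK * (s : KK))⁻¹) ∈ kS := X.kk.neg_mem (X.kk.mul_mem (hq t) hα)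
  have h7 := hc.lin (l * 1) 1 _ hα _ hβ _ hm (hc.mem 1 ξ)
  have e2 : (iK * (s : KK))⁻¹ * (l * 1) + -((t : KK) * (iK * (s : KK))⁻¹) * 1 = r := by
    rw [hl]
    field_simp
    ring
  rwa [e2] at h7

end SQx

theorem ofSQ : OfSQ := by
  intro hHC hPL H _ _ _ U R hR ξ hξ r D h1 h2 h3
  have hc := hHC H U R hR
  have hR' : Rot (fun z => U (r * z)) R :=
    ⟨⟨fun v => by rw [mul_zero, hR.rep.zero], fun a b v => by rw [mul_add, hR.rep.add]⟩,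
      fun l z v hl => by rw [hR.comm l _ v hl, mul_left_comm], hR.inv⟩
  have hs : ∀ c, Hs (fun z => U (r * z)) c = Hs U (r * c) := fun c => by
    ext v
    simp only [mem_Hs, mul_assoc]
  have hp : Pj (fun z => U (r * z)) 1 ξ = Pj U r ξ := by
    refine Submodule.eq_starProjection_of_mem_of_inner_eq_zero ?_ ?_
    · rw [hs, mul_one]; exact hc.mem r ξ
    · rw [hs, mul_one]; exact hc.orth r ξ
  have hA := SQx.claimA hHC hPL hR hξ h1 h2 h3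
  have hB := SQx.claimA hHC hPL hR' hξ h1 h2 h3
  have hD : (D : KK) ≠ 0 := by exact_mod_cast (SQx.dpos h1 h2 h3).2.ne'
  have e : r * r = (D : KK) * 1 := Subtype.ext (by simpa [pow_two] using h2)
  rw [hp, hs, e, hc.sc 1 _ (SQx.hq D) hD] at hB
  rw [← hc.self 1 _ hB, hc.pjP, hc.self r _ hA]

end Pool.Agent.MP_66cee2_co.DX
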