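import Pool.Agent.MP_66cee2_co.DY.Spec
import Pool.Agent.MP_66cee2_co.XT.T
import Pool.Agent.MP_66cee2_co.XT.DEF
import Pool.Agent.MP_66cee2_co.XT.LIM
import Pool.Agent.MP_66cee2_co.XT.TR

/-! Assembly of the transfer in every dimension. -/

namespace Pool.Agent.MP_66cee2_co.DX

open MeasureTheory Filter Topology Matrix Pool.Agent.MP_66cee2_co.XT Pool.Agent.MP_66cee2_co.XT.TA

namespace T1x

variable {M n : ℕ} {ι : Type}

lemma meas_PK {χ : Ec (M + 1) → ℝ} {F : Eu n → ι → ℝ} {c : ℕ → Wg (GG M)}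
    {q : ℕ → Ec (M + 1) → GG M} (hχ : Measurable χ) (hF : Continuous F) (hq : Pt1 q) (j : ℕ)
    (a b : ι) :
    Measurable fun p : Ec (M + 1) × Om KK (M + 1) n => PK χ F c q j p.1 p.2 a b := by
  simp only [PK, mn, of_apply]
  refine Finset.measurable_sum _ fun i _ => Measurable.const_mul ?_ _
  refine meas_ev (q := fun v => q j v + (c j).p i) (measurable_xi hχ hF a b) fun z => ?_
  simpa only [eq_sub_iff_add_eq] using hq.meas j (z - (c j).p i)

lemma sfin1 {C ε : ℝ} {O₁ O₂ : Set (Ec (M + 1))} {ν : Measure (Om KK (M + 1) n)}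
    (h : Sy1 C ε O₁ O₂ ν) : SigmaFinite ν := by
  refine ⟨⟨⟨fun k : ℕ => {w | ‖w.1‖ ≤ k}, fun _ => trivial, fun k => (h.fin k).lt_top, ?_⟩⟩⟩
  exact Set.eq_univ_of_forall fun w => Set.mem_iUnion.2 (exists_nat_ge ‖w.1‖)

lemma swap3 [Fintype ι] {V Ω : Type} [MeasurableSpace V] [MeasurableSpace Ω] {d : ℕ}
    {ν : Measure Ω} [SFinite ν] {P : V → Ω → Matrix ι ι ℝ} {J : Matrix ι ι ℝ}
    {e : Eu d → V} (me : Measurable e)
    (hP : ∀ a b, Measurable fun p : V × Ω => P p.1 p.2 a b)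
    (h : ∀ᵐ z ∂X.sig d, ∀ x, ∀ᵐ w ∂ν, P (e x) w * J * (P (e (x + z)) w)ᵀ = 0) :
    ∀ᵐ w ∂ν, ∀ᵐ x : Eu d, ∀ᵐ z ∂X.sig d, P (e x) w * J * (P (e (x + z)) w)ᵀ = 0 := by
  have h1 : ∀ᵐ p ∂(volume : Measure (Eu d)).prod (X.sig d), ∀ᵐ w ∂ν,
      P (e p.1) w * J * (P (e (p.1 + p.2)) w)ᵀ = 0 := by
    filter_upwards [Measure.quasiMeasurePreserving_snd.ae h] with p hp
    exact hp _
  have h2 : MeasurableSet {q : (Eu d × Eu d) × Ω |
      P (e q.1.1) q.2 * J * (P (e (q.1.1 + q.1.2)) q.2)ᵀ = 0} := by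
    simp only [← Matrix.ext_iff, Set.ofPred_forall, mul_apply, transpose_apply,
      Matrix.zero_apply]
    refine MeasurableSet.iInter fun a => MeasurableSet.iInter fun b =>
      measurableSet_eq_fun (Finset.measurable_sum _ fun c _ => ?_) measurable_const
    have m1 : Measurable fun q : (Eu d × Eu d) × Ω => (e q.1.1, q.2) := by fun_prop
    have m2 : Measurable fun q : (Eu d × Eu d) × Ω => (e (q.1.1 + q.1.2), q.2) := by fun_prop
    exact (Finset.measurable_sum _ fun d _ => ((hP a d).comp m1).mul_const _).mul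
      ((hP b c).comp m2)
  filter_upwards [(Measure.ae_ae_comm h2).1 h1] with w hw
  exact Measure.ae_ae_of_ae_prod hw

lemma swap4 [Fintype ι] {V Ω : Type} [MeasurableSpace V] [MeasurableSpace Ω] {d : ℕ}
    {ν : Measure Ω} [SFinite ν] {G : ℕ → V → Ω → Matrix ι ι ℝ} {P : V → Ω → Matrix ι ι ℝ}
    {e : Eu d → V} (me : Measurable e)
    (hG : ∀ k a b, Measurable fun p : V × Ω => G k p.1 p.2 a b)
    (hP : ∀ a b, Measurable fun p : V × Ω => P p.1 p.2 a b)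
    (h : ∀ x, ∀ᵐ w ∂ν, ∀ a b, Tendsto (fun k => G k (e x) w a b) atTop (𝓝 (P (e x) w a b))) :
    ∀ᵐ w ∂ν, ∀ᵐ x : Eu d, ∀ a b,
      Tendsto (fun k => G k (e x) w a b) atTop (𝓝 (P (e x) w a b)) := by
  refine (Measure.ae_ae_comm ?_).1 (Eventually.of_forall h)
  simp only [Set.ofPred_forall]
  refine MeasurableSet.iInter fun a => MeasurableSet.iInter fun b => ?_
  have mp : Measurable fun p : Eu d × Ω => (e p.1, p.2) := by fun_prop
  exact measurableSet_tendsto_fun (fun k => (hG k a b).comp mp) ((hP a b).comp mp)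

end T1x

open T1x in
theorem ofT1 : OfT1 := by
  intro hSY hCHI hPT hMN hCA hPW hEM M n ι _ J g F hL hM f hf
  by_contra hne
  obtain ⟨C, ε, U₁, U₂, hε, o1, o2, n1, n2, hb, hd⟩ := rowDEF (M + 2) n f (by omega) hf hne
  obtain ⟨e, π, e1, e2, e3, e4, e5⟩ := hEM M
  have o1' : IsOpen (π ⁻¹' U₁) := o1.preimage π.continuous
  have o2' : IsOpen (π ⁻¹' U₂) := o2.preimage π.continuous
  obtain ⟨ν, hν⟩ := hSY M n (fun x => f (π x)) C ε _ _ o1' o2'
    (fun x y h h' => hf _ _ (by rw [← map_sub, e3 _ h, h']))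
    (fun x => (hb (π x)).trans (by linarith [e2 x]))
    (fun p hp q hq => (hd _ hp _ hq).trans (by rw [← map_sub]; linarith [e2 (p - q)]))
  obtain ⟨q, hq⟩ := hPT M
  obtain ⟨χ, hχ⟩ := hCHI M n C ε _ _ ν ι F hν hL.cont
  obtain ⟨c, hc, hc'⟩ := hMN M n C ε _ _ ν hν (ι × ι) (fun t => xi χ F t.1 t.2)
    fun t => hχ.mem _ _
  obtain ⟨c1, c2, c3⟩ := hCA M n C ε _ _ ν ι J g F χ c q hν hL hχ hc (fun a b => hc' (a, b)) hq
  obtain ⟨σ, hσ, hlim⟩ := rowLIM (Om KK (M + 1) n) (Eu (M + 2)) (ι × ι) ν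
    (fun t j x w => PK χ F c q j (e x) w t.1 t.2) (fun t j x => c1 _ _ j _) fun t η hη =>
      (c2 t.1 t.2 η hη).imp fun N hN j j' h1 h2 x => hN j j' h1 h2 _ (e1 x)
  obtain ⟨p1, p2⟩ := hPW M n C ε _ _ ν ι J g F χ c q σ hL hχ hc hq hσ o1' o2'
  have := sfin1 hν
  have hPJ := fun k => meas_PK (c := c) hχ.meas hL.cont hq (σ k)
  obtain ⟨P, hPm, hP⟩ := exists_lim (G := fun k => PK χ F c q (σ k)) hPJ
  have hG : ∀ x, ∀ᵐ w ∂ν, ∀ a b,
      Tendsto (fun k => PK χ F c q (σ k) (e x) w a b) atTop (𝓝 (P (e x) w a b)) := fun x => by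
    filter_upwards [hlim x] with w hw a b
    exact hP _ w a b (hw (a, b))
  have hO : ∀ x z : Eu (M + 2), ‖z‖ = 1 → e z 0 ≠ 0 →
      ∀ᵐ w ∂ν, P (e x) w * J * (P (e (x + z)) w)ᵀ = 0 := fun x z hz hz' => by
    have h3 := (c3 (e x) (e z) (e1 x) (e1 z) (by rw [e.norm_map, hz]) hz').comp hσ
    rw [← map_add] at h3
    have h0 := fatou (L := fun w => (P (e x) w * J * P (e (x + z)) w * J).trace)
      (fun k => int_trace J (fun a b => c1 a b (σ k) (e x)) fun a b => c1 a b (σ k) (e (x + z)))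
      (fun k w => (rowTR ι J _ _ hL.sym (p1 _ _ w) (p1 _ _ w)).1)
      (by
        filter_upwards [hG x, hG (x + z)] with w h1 h2
        exact tendsto_trace J h1 h2) h3
    filter_upwards [h0, hG x, hG (x + z), hν.ae] with w h h1 h2 hw
    have q1 := (p2 w hw _ _ (e1 _) h1).1.1
    have q2 := (p2 w hw _ _ (e1 _) h2).1.1
    have q3 : (P (e (x + z)) w)ᵀ = P (e (x + z)) w := q2.1
    rw [q3]
    exact (rowTR ι J _ _ hL.sym q1 q2).2 h
  have me : Measurable e := e.continuous.measurable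
  have hG' := swap4 (G := fun k => PK χ F c q (σ k)) me hPJ hPm hG
  have hO' := swap3 (ν := ν) (J := J) me hPm (by
    filter_upwards [sig_ae (d := M + 2) (by omega), e4] with z h1 h2 x
    exact hO x z h1 h2)
  have := ae_neBot.2 hν.ne
  obtain ⟨w, hw, hg, ho⟩ := (hν.ae.and (hG'.and hO')).exists
  obtain ⟨S, hS, hSS⟩ := hM (fun x => P (e x) w)
    (fun a b => (hPm a b).comp (me.prodMk measurable_const))
    (by
      filter_upwards [hg] with x hx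
      exact (p2 w hw _ _ (e1 _) hx).1) ho
  have ex : ∀ {O : Set (Eu (M + 2))}, IsOpen O → O.Nonempty → ∃ x, ps w (e x) ∈ π ⁻¹' O ∧ x ∈ S ∧
      ∀ a b, Tendsto (fun k => PK χ F c q (σ k) (e x) w a b) atTop (𝓝 (P (e x) w a b)) := by
    intro O hO' ⟨o, ho'⟩
    have h1 : IsOpen {x | ps w (e x) ∈ π ⁻¹' O} := (hO'.preimage π.continuous).preimage
      (continuous_ps.comp (continuous_const.prodMk e.continuous))
    obtain ⟨x, hx⟩ := e5 w.2.1 w.1 o hw.1 hw.2.2.1.1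
    exact (Measure.dense_of_ae (hS.and hg)).inter_open_nonempty _ h1
      ⟨x, show π (w.1 + rot w.2.1 (e x)) ∈ O from hx ▸ ho'⟩
  obtain ⟨x, x1, x2, x3⟩ := ex o1 n1
  obtain ⟨y, y1, y2, y3⟩ := ex o2 n2
  obtain ⟨r1, r2⟩ := (p2 w hw _ _ (e1 _) x3).2 _ _ (e1 _) y3 x1 y1
  rw [hSS x x2 y y2] at r2
  rw [← map_sub, e.norm_map] at r1 r2
  have r3 := le_of_mul_le_mul_left r2
    (mul_pos (p2 w hw _ _ (e1 _) x3).1.2.2 (p2 w hw _ _ (e1 _) y3).1.2.2)
  nlinarith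

end Pool.Agent.MP_66cee2_co.DX
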