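import Pool.Agent.MP_66cee2_co.DY.Spec

/-! Two abstract lemmas of the transfer. -/

namespace Pool.Agent.MP_66cee2_co.DX

open Filter Topology
open scoped RealInnerProductSpace

namespace TWOx

theorem sum_sq {H : Type} [NormedAddCommGroup H] [InnerProductSpace ℝ H] (ξ : H) (x : ℕ → H)
    (b : ℝ) (h1 : ∀ j, ⟪x j, x j⟫ = b) (h2 : ∀ j, ⟪ξ, x j⟫ = b)
    (h3 : ∀ i j, i ≠ j → ⟪x i, x j⟫ = 0) (N : ℕ) :
    ‖ξ - ∑ j ∈ Finset.range N, x j‖ ^ 2 = ‖ξ‖ ^ 2 - N * b := by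
  induction N with
  | zero => simp
  | succ N ih =>
    have h0 : ⟪∑ j ∈ Finset.range N, x j, x N⟫ = 0 := by
      rw [sum_inner]
      exact Finset.sum_eq_zero fun j hj => h3 j N (Finset.mem_range.1 hj).ne
    rw [Finset.sum_range_succ, ← sub_sub, norm_sub_sq_real, ih, inner_sub_left, h0, h2,
      ← real_inner_self_eq_norm_sq (x N), h1]
    push_cast
    ring

theorem near {V : Type} [NormedAddCommGroup V] (Γ : AddSubgroup V) (N : V → ℝ) (A : V → V) (x : V)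
    (hA : Continuous A) (h : ∀ a ∈ Γ, A a ∈ Γ ∧ N (A a) = N a)
    (h0 : ∀ ε : ℝ, 0 < ε → ∃ δ : ℝ, 0 < δ ∧ ∀ a ∈ Γ, ‖a‖ ≤ δ → N a ≤ ε)
    (hx : Tendsto (fun k => A^[k] x) atTop (𝓝 0)) (ε : ℝ) (hε : 0 < ε) :
    ∃ δ : ℝ, 0 < δ ∧ ∀ a ∈ Γ, ‖a - x‖ ≤ δ → N a ≤ ε := by
  obtain ⟨δ₀, hδ₀, H⟩ := h0 ε hε
  have hit : ∀ k, ∀ a ∈ Γ, A^[k] a ∈ Γ ∧ N (A^[k] a) = N a := by
    intro k a ha
    induction k with
    | zero => exact ⟨ha, rfl⟩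
    | succ k ih =>
      rw [Function.iterate_succ_apply']
      exact ⟨(h _ ih.1).1, (h _ ih.1).2.trans ih.2⟩
  obtain ⟨k, hk⟩ := (hx.eventually (Metric.ball_mem_nhds (0 : V) hδ₀)).exists
  have hn : (A^[k]) ⁻¹' Metric.ball 0 δ₀ ∈ 𝓝 x :=
    (hA.iterate k).continuousAt.preimage_mem_nhds (Metric.isOpen_ball.mem_nhds hk)
  obtain ⟨δ, hδ, hb⟩ := Metric.nhds_basis_closedBall.mem_iff.1 hn
  refine ⟨δ, hδ, fun a ha hax => ?_⟩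
  have : A^[k] a ∈ Metric.ball (0 : V) δ₀ := hb (by rwa [Metric.mem_closedBall, dist_eq_norm])
  rw [← (hit k a ha).2]
  exact H _ (hit k a ha).1 (mem_ball_zero_iff.1 this).le

end TWOx

theorem rowTWO : RowTWO := by
  intro H _ _ ξ ζ η h1 h2 h3 h4 h5 j
  have e1 : ∀ j, ⟪η j - ζ, η j - ζ⟫ = ‖η 0‖ ^ 2 - ‖ζ‖ ^ 2 := fun j => by
    rw [real_inner_self_eq_norm_sq, norm_sub_sq_real, h4, h2]; ring
  have e2 : ∀ j, ⟪ξ, η j - ζ⟫ = ‖η 0‖ ^ 2 - ‖ζ‖ ^ 2 := fun j => by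
    rw [inner_sub_right, h1, h2, h5]
  have e3 : ∀ i j, i ≠ j → ⟪η i - ζ, η j - ζ⟫ = 0 := fun i j hij => by
    rw [inner_sub_left, inner_sub_right, inner_sub_right, h3 i j hij, h4, real_inner_comm, h4,
      real_inner_self_eq_norm_sq]
    ring
  have hb : ‖η 0‖ ^ 2 - ‖ζ‖ ^ 2 ≤ 0 := by
    by_contra hb
    rw [not_le] at hb
    obtain ⟨N, hN⟩ := exists_nat_gt (‖ξ‖ ^ 2 / (‖η 0‖ ^ 2 - ‖ζ‖ ^ 2))
    have := TWOx.sum_sq ξ (fun j => η j - ζ) _ e1 e2 e3 N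
    rw [div_lt_iff₀ hb] at hN
    nlinarith [sq_nonneg ‖ξ - ∑ j ∈ Finset.range N, (η j - ζ)‖]
  have : ⟪η j - ζ, η j - ζ⟫ = 0 := le_antisymm ((e1 j).trans_le hb) real_inner_self_nonneg
  exact sub_eq_zero.1 (inner_self_eq_zero.1 this)

theorem rowMA0 : RowMA0 := by
  intro V _ Γ N A B x y hd hA hB h1 h2 h3 h0 hx hy ε hε
  obtain ⟨δ₁, hδ₁, H1⟩ := TWOx.near Γ N A x hA h1 h0 hx (ε / 2) (half_pos hε)
  obtain ⟨δ₂, hδ₂, H2⟩ := TWOx.near Γ N B y hB h2 h0 hy (ε / 2) (half_pos hε)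
  refine ⟨δ₂ / 2, half_pos hδ₂, fun a ha hax => ?_⟩
  obtain ⟨b, hb, hbx⟩ := hd.exists_dist_lt x (lt_min hδ₁ (half_pos hδ₂))
  rw [dist_comm, dist_eq_norm] at hbx
  have hab : a - b ∈ Γ := Γ.sub_mem ha hb
  have e : a - b - y = (a - (x + y)) - (b - x) := by abel
  have h4 := H1 b hb (hbx.le.trans (min_le_left _ _))
  have h5 := H2 _ hab (by
    rw [e]
    linarith [norm_sub_le (a - (x + y)) (b - x), min_le_right δ₁ (δ₂ / 2)])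
  have h6 := h3 b hb _ hab
  rw [add_sub_cancel] at h6
  linarith

end Pool.Agent.MP_66cee2_co.DX
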