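import Pool.Agent.MP_66cee2_co.D.Defs
import Pool.Agent.MP_66cee2_co.XT.BR
import Pool.Agent.MP_66cee2_co.XR.All
import Pool.Agent.MP_66cee2_co.DY.T1
import Pool.Agent.MP_66cee2_co.DY.HC
import Pool.Agent.MP_66cee2_co.DY.MIN
import Pool.Agent.MP_66cee2_co.DY.TWO
import Pool.Agent.MP_66cee2_co.DY.PA
import Pool.Agent.MP_66cee2_co.DY.PL
import Pool.Agent.MP_66cee2_co.DY.SQ
import Pool.Agent.MP_66cee2_co.DY.MA
import Pool.Agent.MP_66cee2_co.DY.RP
import Pool.Agent.MP_66cee2_co.DY.SY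
import Pool.Agent.MP_66cee2_co.DY.CP
import Pool.Agent.MP_66cee2_co.DY.REP
import Pool.Agent.MP_66cee2_co.DY.COR
import Pool.Agent.MP_66cee2_co.DY.MN
import Pool.Agent.MP_66cee2_co.DY.SP
import Pool.Agent.MP_66cee2_co.DY.CA
import Pool.Agent.MP_66cee2_co.DY.PW
import Pool.Agent.MP_66cee2_co.DY.EM

/-! The transfer in every dimension at least two. -/

namespace Pool.Agent.MP_66cee2_co.DX

open MeasureTheory Matrix Pool.Agent.MP_66cee2_co.XT Pool.Agent.MP_66cee2_co.XT.BRA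

theorem rowPL : RowPL := ofPL rowHC rowTWO

theorem rowRP : RowRP :=
  ofRP rowHC (ofPA X.sRPDAll rowMIN rowHC) rowPL (ofSQ rowHC rowPL) (ofMA rowHC rowMA0)

theorem rowT1 : RowT1 :=
  ofT1 rowSY rowCHI1 rowPT (ofMN rowREP rowMIN) (ofCA (ofCOR rowREP rowRP) rowSP) rowPW1 rowEM

theorem ms_of {d n : ℕ} (h : D.SMd d n) : MS d (JM n) (Pi.single X.sI 1) := by
  intro P hm hp ho
  have hF : X.Field P := by
    refine ⟨hm, ?_, ?_⟩
    · filter_upwards [hp] with x hx
      rw [quad, trace_eq] at hx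
      exact ⟨hx.1, hx.2.2, hx.2.1⟩
    · filter_upwards [ho] with x hx
      filter_upwards [hx] with z hz a b
      rw [← entry, hz]
      rfl
  obtain ⟨g, hg, hP⟩ := h P hF
  refine ⟨_, hP, fun x hx y hy => ?_⟩
  have e : ∀ z, (∀ a b, P z a b = P z X.sI X.sI * X.lift (g z) a * X.lift (g z) b) →
      P z *ᵥ Pi.single X.sI 1 = P z X.sI X.sI • X.lift (g z) := fun z hz => by
    funext a
    have := hz a X.sI
    simpa [X.lift] using this
  rw [quad, quad, e x hx, e y hy, mulVec_smul, smul_dotProduct, dotProduct_smul, lift_JM.ip, hg]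
  simp only [smul_eq_mul]
  ring

/-- The measurable theorem gives the theorem for all maps, in every dimension at least two. -/
theorem transfer (d n : ℕ) (hd : 2 ≤ d) (h : D.SMd d n) : AllIso d n := by
  obtain ⟨M, rfl⟩ : ∃ M, d = M + 2 := ⟨d - 2, by omega⟩
  exact rowT1 M n _ (JM n) (Pi.single X.sI 1) _ lift_JM (ms_of h)

theorem sTr : D.STr := fun d n hd h => transfer d n (by omega) h

end Pool.Agent.MP_66cee2_co.DX
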