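import Pool.Agent.MP_66cee2_co.DY.Spec
import Pool.Agent.MP_66cee2_co.XT.XS
import Pool.Agent.MP_66cee2_co.XT.FUN
import Pool.Agent.MP_66cee2_co.XT.MEAS
import Pool.Agent.MP_66cee2_co.XT.MEAN

/-! Row SY: an invariant measure on the configurations, rotations in one plane only. -/

namespace Pool.Agent.MP_66cee2_co.DX

open Set Metric Complex MeasureTheory Pool.Agent.MP_66cee2_co.XT

noncomputable section

namespace SYx

variable {M n : ℕ} {C ε : ℝ} {O₁ O₂ : Set (Ec (M + 1))}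

theorem closed (h1 : IsOpen O₁) (h2 : IsOpen O₂) :
    IsClosed (XS1 C ε O₁ O₂ : Set (Om KK (M + 1) n)) := by
  have c := @XSA.cps KK (M + 1) n
  simp only [XS1, ofPred_and, ofPred_forall]
  refine (isClosed_iInter fun j => isClosed_eq (by fun_prop) continuous_const).inter
    ((isClosed_iInter fun z => isClosed_le (by fun_prop) (by fun_prop)).inter
      (((isClosed_iInter fun j => isClosed_eq (by fun_prop) continuous_const).inter
        (isClosed_iInter fun z => isClosed_iInter fun z' => isClosed_iInter fun _ =>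
          isClosed_iInter fun _ => isClosed_eq (by fun_prop) continuous_const)).inter
        (isClosed_iInter fun z => isClosed_iInter fun z' => ?_)))
  exact isClosed_imp (h1.preimage (c _)) (isClosed_imp (h2.preimage (c _))
    (isClosed_le (by fun_prop) continuous_const))

theorem compact (h1 : IsOpen O₁) (h2 : IsOpen O₂) (R : ℝ) :
    IsCompact {w : Om KK (M + 1) n | w ∈ XS1 C ε O₁ O₂ ∧ ‖w.1‖ ≤ R} := by
  refine ((isCompact_closedBall (0 : Ec (M + 1)) R).prod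
    ((isCompact_univ_pi fun _ : Fin (M + 1) => isCompact_closedBall (0 : ℂ) 1).prod
      (isCompact_univ_pi fun z : GG M =>
        isCompact_closedBall (0 : Eu n) (C + 2 * (R + ‖XT.em z‖))))).of_isClosed_subset
    ((closed h1 h2).inter (isClosed_le continuous_fst.norm continuous_const)) ?_
  rintro w ⟨⟨a, b, -⟩, c⟩
  refine ⟨mem_closedBall_zero_iff.2 c, fun j _ => mem_closedBall_zero_iff.2 (a j).le,
    fun z _ => mem_closedBall_zero_iff.2 ((b z).trans ?_)⟩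
  have := norm_add_le w.1 (rot w.2.1 (XT.em z))
  rw [norm_rot a] at this
  rw [ps]
  linarith

theorem rl_mv (a : GG M) {l : GG M} (hl : Un1 l) {z z' : GG M} (h : Rl (XT.em z - XT.em z')) :
    Rl (XT.em (a + l * z) - XT.em (a + l * z')) := by
  intro j
  have h1 := h j
  have h2 := hl.2 j
  simp only [PiLp.sub_apply, em_apply, sub_im] at h1
  simp only [PiLp.sub_apply, em_apply, Pi.add_apply, Pi.mul_apply, h2, one_mul, sub_im,
    Subfield.coe_add, add_im]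
  linarith

theorem mv_mem (a : GG M) {l : GG M} (hl : Un1 l) (w : Om KK (M + 1) n)
    (hw : w ∈ XS1 C ε O₁ O₂) :
    mv a l w ∈ XS1 C ε O₁ O₂ ∧ ‖w.1‖ ≤ ‖(mv a l w).1‖ + ‖XT.em a‖ := by
  obtain ⟨p, q, ⟨r0, r⟩, s⟩ := hw
  refine ⟨⟨fun j => ?_, fun z => ?_, ⟨fun j => ?_, fun z z' h h' =>
    r _ _ (rl_mv a hl h) ((XSA.dist_mv a hl.1 z z').trans h')⟩, fun z z' h h' => ?_⟩, ?_⟩
  · exact (norm_mul _ _).trans (by rw [p, hl.1, mul_one])
  · rw [ps_mv]
    exact q _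
  · change w.2.1 j.succ * (l j.succ : ℂ) = 1
    rw [r0, hl.2, one_mul, Subfield.coe_one]
  · rw [ps_mv] at h h'
    rw [← XSA.dist_mv a hl.1]
    exact s _ _ h h'
  · have := norm_sub_le (ps w (XT.em a)) (rot w.2.1 (XT.em a))
    rwa [norm_rot p, show ps w (XT.em a) - rot w.2.1 (XT.em a) = w.1 from
      add_sub_cancel_right _ _] at this

theorem mv_cont (a l : GG M) : Continuous (mv a l : Om KK (M + 1) n → Om KK (M + 1) n) :=
  (XSA.cps _).prodMk (Continuous.prodMk (by fun_prop) (by fun_prop))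

theorem W_mem {f : Ec (M + 1) → Eu n}
    (h1 : ∀ x y, Rl (x - y) → ‖x - y‖ = 1 → ‖f x - f y‖ = 1) (h2 : ∀ x, ‖f x‖ ≤ C + 2 * ‖x‖)
    (h3 : ∀ p ∈ O₁, ∀ q ∈ O₂, ‖f p - f q‖ ≤ ‖p - q‖ - ε) (a : GG M) {l : GG M}
    (hl : Un1 l) : FUNA.W f a l ∈ XS1 C ε O₁ O₂ := by
  have e := XSA.dist_mv a hl.1
  refine ⟨hl.1, fun z => ?_, ⟨fun j => ?_, fun z z' h h' =>
    h1 _ _ (rl_mv a hl h) (by rw [e, h'])⟩, fun z z' h h' => ?_⟩
  · rw [FUNA.ps_W]
    exact h2 _
  · change (l j.succ : ℂ) = 1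
    rw [hl.2, Subfield.coe_one]
  · rw [FUNA.ps_W] at h h'
    rw [← e]
    exact h3 _ h _ h'

/-- the group of rotations of the first coordinate -/
def UG1 (M : ℕ) : Subgroup (GG M)ˣ where
  carrier := {l | Un1 l.1}
  one_mem' := ⟨un_one, fun _ => rfl⟩
  mul_mem' := fun {a b} ha hb => ⟨(FUNA.UG KK (M + 1)).mul_mem ha.1 hb.1, fun j => by
    rw [Units.val_mul, Pi.mul_apply, ha.2, hb.2, mul_one]⟩
  inv_mem' := fun {a} ha => ⟨(FUNA.UG KK (M + 1)).inv_mem ha.1, fun j => by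
    have h := congrFun a.mul_inv j.succ
    rwa [Pi.mul_apply, ha.2, one_mul] at h⟩

theorem ex_unit {l : GG M} (hl : Un1 l) : ∃ u : UG1 M, u.1.1 = l := by
  obtain ⟨u, hu⟩ := FUNA.ex_unit hl.1
  exact ⟨⟨u.1, by
    change Un1 u.1.1
    rwa [hu]⟩, hu⟩

end SYx

open SYx in
theorem rowSY : RowSY := by
  intro M n f C ε O₁ O₂ o1 o2 h1 h2 h3
  have hI : (I : ℂ) ∈ KK := X.kk_le_KK ⟨⟨0, by simp⟩, 1, by simp⟩
  obtain ⟨i, hi⟩ : ∃ i : KK, (i : ℂ) = I := ⟨⟨I, hI⟩, rfl⟩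
  have hc : Countable (GG M)ˣ := Units.val_injective.countable
  have hc' : Countable (Additive (UG1 M)) := (inferInstance : Countable (UG1 M))
  obtain ⟨M₁, k1⟩ := rowMEAN (GG M)
  obtain ⟨M₂, k2⟩ := rowMEAN (Additive (UG1 M))
  have b1 : ∀ {φ : Om KK (M + 1) n → ℝ}, Cl φ → ∀ l, Bd fun a => FUNA.Ph f i φ a l := fun h l =>
    (FUNA.fin f hi h).imp fun D hD a => (hD a l).2
  have b2 : ∀ {φ : Om KK (M + 1) n → ℝ}, Cl φ →
      Bd fun l : Additive (UG1 M) => M₁ fun a => FUNA.Ph f i φ a l.toMul.1.1 := fun h =>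
    (FUNA.fin f hi h).imp fun D hD l => FUNA.mean_abs k1 fun a => (hD a _).2
  have fs : ∀ {φ : Om KK (M + 1) n → ℝ}, Cl φ → ∀ a l,
      (Function.support fun r => φ (FUNA.W f (FUNA.ga i r + a) l)).Finite := fun h a l =>
    (FUNA.fin f hi h).elim fun D hD => (hD a l).1
  obtain ⟨ν, a1, a2, a3, a4⟩ := MEASA.abs_meas (Ω := Om KK (M + 1) n) (N := fun w => ‖w.1‖)
    (S := XS1 C ε O₁ O₂) (by fun_prop) (closed o1 o2) (compact o1 o2) Cl (fun _ h => h)
    (fun φ => M₂ fun l => M₁ fun a => FUNA.Ph f i φ a l.toMul.1.1)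
    (fun φ ψ hφ hψ => by
      rw [← k2.add _ _ (b2 hφ) (b2 hψ)]
      refine congrArg M₂ (funext fun l => ?_)
      rw [← k1.add _ _ (b1 hφ _) (b1 hψ _)]
      exact congrArg M₁ (funext fun a => finsum_add_distrib (fs hφ a _) (fs hψ a _)))
    (fun c φ hφ => by
      rw [← k2.smul _ _ (b2 hφ)]
      refine congrArg M₂ (funext fun l => ?_)
      rw [← k1.smul _ _ (b1 hφ _)]
      exact congrArg M₁ (funext fun a => (mul_finsum _ c).symm))
    (fun φ hφ h0 => FUNA.mean_ge k2 (b2 hφ) fun l => FUNA.mean_ge k1 (b1 hφ _) fun a =>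
      finsum_nonneg fun r => h0 _)
    (fun φ ψ h => congrArg M₂ (funext fun l => congrArg M₁ (funext fun a =>
      finsum_congr fun r => h _ (W_mem h1 h2 h3 _ l.toMul.2))))
    ⟨√(((M + 1 : ℕ) : ℝ) * 2 ^ 2), fun φ hφ h0 h =>
      FUNA.mean_ge k2 (b2 hφ) fun l => FUNA.mean_ge k1 (b1 hφ _) fun a =>
        (h _ (W_mem h1 h2 h3 _ l.toMul.2) (FUNA.near hi a)).trans
          (single_le_finsum (f := fun r => φ (FUNA.W f (FUNA.ga i r + a) l.toMul.1.1)) _
            (fs hφ a _) fun r => h0 _)⟩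
  refine ⟨ν, a1, a2, a3, fun a' l' hl => a4 _ ‖XT.em a'‖ (mv_cont a' l') (mv_mem a' hl)
    fun φ hφ => ?_⟩
  obtain ⟨u, rfl⟩ := ex_unit hl
  rw [← k2.inv _ (Additive.ofMul u) (b2 hφ)]
  refine congrArg M₂ (funext fun l => ?_)
  rw [← k1.inv _ (l.toMul.1.1 * a') (b1 hφ _)]
  refine congrArg M₁ (funext fun a => finsum_congr fun r => ?_)
  beta_reduce
  rw [FUNA.mv_W, add_assoc]
  rfl

end

end Pool.Agent.MP_66cee2_co.DX
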