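import Pool.Agent.MP_66cee2_co.XT.Spec

/-! Transfer in every dimension, with rotations in one plane only: definitions and rows. -/

namespace Pool.Agent.MP_66cee2_co.DX

open MeasureTheory Filter Topology Matrix Pool.Agent.MP_66cee2_co.XT
open scoped RealInnerProductSpace

noncomputable section

/-- The algebraic numbers. -/
abbrev KK : Subfield ℂ := X.KK

theorem mem_KK_of_sq {x : ℂ} (h : x ^ 2 ∈ KK) : x ∈ KK :=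
  mem_algebraicClosure_iff.2 (IsAlgebraic.of_pow two_pos (mem_algebraicClosure_iff.1 h))

/-- The Gaussian rationals as an additive subgroup. -/
def kS : AddSubgroup KK where
  carrier := {z | (z : ℂ) ∈ X.kk}
  add_mem' := fun {a b} ha hb => X.kk.add_mem ha hb
  zero_mem' := X.kk.zero_mem
  neg_mem' := fun {a} ha => X.kk.neg_mem ha

/-- Finite families of weights and points. -/
structure Wg (G : Type) where
  N : ℕ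
  c : ℕ → ℝ
  p : ℕ → G

/-- The weights are a probability vector, and the points lie in `S`. -/
structure Wg.Ok {G : Type} (a : Wg G) (S : Set G) : Prop where
  pos : ∀ i, 0 ≤ a.c i
  one : ∑ i ∈ Finset.range a.N, a.c i = 1
  mem : ∀ i, a.p i ∈ S

/-! ### Representations on a Hilbert space -/

section hilbert

variable {H : Type} [NormedAddCommGroup H] [InnerProductSpace ℝ H]

/-- A representation of an additive group by isometries. -/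
structure Rep {G : Type} [AddCommGroup G] (U : G → H →ₗᵢ[ℝ] H) : Prop where
  zero : ∀ v, U 0 v = v
  add : ∀ a b v, U (a + b) v = U a (U b v)

/-- The weighted mean of the translates of a vector. -/
def Wg.av {G : Type} (a : Wg G) (U : G → H →ₗᵢ[ℝ] H) (v : H) : H :=
  ∑ i ∈ Finset.range a.N, a.c i • U (a.p i) v

/-- Translations and rotations. -/
structure Rot (U R : KK → H →ₗᵢ[ℝ] H) : Prop where
  rep : Rep U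
  comm : ∀ (l z : KK) (v : H), ‖(l : ℂ)‖ = 1 → R l (U z v) = U (l * z) (R l v)
  inv : ∀ (l : KK) (v : H), ‖(l : ℂ)‖ = 1 → R l (R l⁻¹ v) = v

/-- Vectors fixed by all rotations. -/
def Fix (R : KK → H →ₗᵢ[ℝ] H) (v : H) : Prop := ∀ l : KK, ‖(l : ℂ)‖ = 1 → R l v = v

/-- The vectors that are continuous along the line `c ℚ(i)`. -/
def Hs (U : KK → H →ₗᵢ[ℝ] H) (c : KK) : Submodule ℝ H where
  carrier := {v | ∀ η : ℝ, 0 < η → ∃ δ : ℝ, 0 < δ ∧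
    ∀ z ∈ kS, ‖(z : ℂ)‖ ≤ δ → ‖U (c * z) v - v‖ ≤ η}
  zero_mem' := fun η hη => ⟨1, one_pos, fun z _ _ => by simpa using hη.le⟩
  add_mem' := fun {a b} ha hb η hη => by
    obtain ⟨δ, h1, h2⟩ := ha (η / 2) (half_pos hη)
    obtain ⟨δ', h3, h4⟩ := hb (η / 2) (half_pos hη)
    refine ⟨min δ δ', lt_min h1 h3, fun z hz h => ?_⟩
    rw [map_add, add_sub_add_comm]
    linarith [norm_add_le (U (c * z) a - a) (U (c * z) b - b), h2 z hz (h.trans (min_le_left _ _)),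
      h4 z hz (h.trans (min_le_right _ _))]
  smul_mem' := fun r a ha η hη => by
    obtain ⟨δ, h1, h2⟩ := ha (η / (‖r‖ + 1)) (by positivity)
    refine ⟨δ, h1, fun z hz h => ?_⟩
    rw [map_smul, ← smul_sub, norm_smul]
    have h3 := h2 z hz h
    rw [le_div_iff₀ (by positivity)] at h3
    nlinarith [norm_nonneg (U (c * z) a - a)]

theorem mem_Hs {U : KK → H →ₗᵢ[ℝ] H} {c : KK} {v : H} : v ∈ Hs U c ↔
    ∀ η : ℝ, 0 < η → ∃ δ : ℝ, 0 < δ ∧ ∀ z ∈ kS, ‖(z : ℂ)‖ ≤ δ → ‖U (c * z) v - v‖ ≤ η := Iff.rfl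

theorem isClosed_Hs (U : KK → H →ₗᵢ[ℝ] H) (c : KK) : IsClosed (Hs U c : Set H) := by
  refine isClosed_of_closure_subset fun v hv η hη => ?_
  obtain ⟨a, ha, h⟩ := Metric.mem_closure_iff.1 hv (η / 3) (by positivity)
  obtain ⟨δ, h1, h2⟩ := ha (η / 3) (by positivity)
  refine ⟨δ, h1, fun z hz hz' => ?_⟩
  rw [dist_eq_norm] at h
  have e : U (c * z) v - v = U (c * z) (v - a) + (U (c * z) a - a) - (v - a) := by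
    rw [map_sub]; abel
  have h3 := norm_sub_le (U (c * z) (v - a) + (U (c * z) a - a)) (v - a)
  have h4 := norm_add_le (U (c * z) (v - a)) (U (c * z) a - a)
  rw [LinearIsometry.norm_map] at h4
  rw [e]
  linarith [h2 z hz hz']

instance hasProj [CompleteSpace H] (U : KK → H →ₗᵢ[ℝ] H) (c : KK) :
    (Hs U c).HasOrthogonalProjection :=
  have := (isClosed_Hs U c).completeSpace_coe
  inferInstance

/-- The projection onto the vectors that are continuous along a line. -/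
def Pj [CompleteSpace H] (U : KK → H →ₗᵢ[ℝ] H) (c : KK) : H →L[ℝ] H := (Hs U c).starProjection

/-- The facts about the projections. -/
structure HC [CompleteSpace H] (U R : KK → H →ₗᵢ[ℝ] H) : Prop where
  mem : ∀ c v, Pj U c v ∈ Hs U c
  orth : ∀ c v, ∀ w ∈ Hs U c, ⟪v - Pj U c v, w⟫ = 0
  self : ∀ c, ∀ v ∈ Hs U c, Pj U c v = v
  tr : ∀ c a, ∀ v ∈ Hs U c, U a v ∈ Hs U c
  pjU : ∀ c a v, Pj U c (U a v) = U a (Pj U c v)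
  pjH : ∀ c c', ∀ v ∈ Hs U c', Pj U c v ∈ Hs U c'
  pjP : ∀ c c' v, Pj U c (Pj U c' v) = Pj U c' (Pj U c v)
  rotH : ∀ l c : KK, ‖(l : ℂ)‖ = 1 → ∀ v ∈ Hs U c, R l v ∈ Hs U (l * c)
  rotP : ∀ (l c : KK) (v : H), ‖(l : ℂ)‖ = 1 → Pj U (l * c) (R l v) = R l (Pj U c v)
  lin : ∀ a b : KK, ∀ α ∈ kS, ∀ β ∈ kS, ∀ v ∈ Hs U a, v ∈ Hs U b → v ∈ Hs U (α * a + β * b)
  sc : ∀ c : KK, ∀ α ∈ kS, α ≠ 0 → Hs U (α * c) = Hs U c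

end hilbert

def RowHC : Prop :=
  ∀ (H : Type) [NormedAddCommGroup H] [InnerProductSpace ℝ H] [CompleteSpace H]
    (U R : KK → H →ₗᵢ[ℝ] H), Rot U R → HC U R

/-- Means of almost minimal norm are Cauchy. -/
def RowMIN : Prop :=
  ∀ (G : Type) [AddCommGroup G] (S : AddSubgroup G) (e : G → ℝ), e 0 = 0 →
    (∀ a b, e (a + b) ≤ e a + e b) →
    ∀ (H : Type) [NormedAddCommGroup H] [InnerProductSpace ℝ H] (U : G → H →ₗᵢ[ℝ] H), Rep U →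
    ∀ (T : Type) [Fintype T] (ξ : T → H), ∃ c : ℕ → Wg G,
      (∀ j : ℕ, (c j).Ok {z | z ∈ S ∧ e z ≤ 1 / ((j : ℝ) + 1)}) ∧
      ∀ η : ℝ, 0 < η → ∃ N : ℕ, ∀ j j', N ≤ j → N ≤ j' → ∀ t ∈ S, e t ≤ 1 / ((N : ℝ) + 1) →
        ∀ k, ‖(c j).av U (ξ k) - U t ((c j').av U (ξ k))‖ ≤ η

/-- Infinitely many projections with the same pairwise product. -/
def RowTWO : Prop :=
  ∀ (H : Type) [NormedAddCommGroup H] [InnerProductSpace ℝ H] (ξ ζ : H) (η : ℕ → H),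
    (∀ j, ⟪ξ, η j⟫ = ‖η j‖ ^ 2) → (∀ j, ‖η j‖ = ‖η 0‖) → (∀ i j, i ≠ j → ⟪η i, η j⟫ = ‖ζ‖ ^ 2) →
    (∀ j, ⟪η j, ζ⟫ = ‖ζ‖ ^ 2) → ⟪ξ, ζ⟫ = ‖ζ‖ ^ 2 → ∀ j, η j = ζ

/-- Only the continuous part contributes to the correlation. -/
def RowPA : Prop :=
  ∀ (H : Type) [NormedAddCommGroup H] [InnerProductSpace ℝ H] [CompleteSpace H]
    (U R : KK → H →ₗᵢ[ℝ] H), Rot U R → ∀ ξ ξ' : H, Fix R ξ → Fix R ξ' → ∀ c : KK, c ≠ 0 →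
    ⟪ξ', U c ξ⟫ = ⟪ξ', U c (Pj U c ξ)⟫

/-- The continuous part is fixed by the rotations whose real part lies in `ℚ(r)`. -/
def RowPL : Prop :=
  ∀ (H : Type) [NormedAddCommGroup H] [InnerProductSpace ℝ H] [CompleteSpace H]
    (U R : KK → H →ₗᵢ[ℝ] H), Rot U R → ∀ ξ : H, Fix R ξ → ∀ (r μ : KK) (D p q : ℚ),
    (r : ℂ).im = 0 → (r : ℂ) ^ 2 = D → Pj U 1 ξ ∈ Hs U r → ‖(μ : ℂ)‖ = 1 →
    (μ : ℂ).re = p + q * (r : ℂ).re → R μ (Pj U 1 ξ) = Pj U 1 ξ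

/-- The continuous parts along `ℚ(i)` and `r ℚ(i)` agree. -/
def RowSQ : Prop :=
  ∀ (H : Type) [NormedAddCommGroup H] [InnerProductSpace ℝ H] [CompleteSpace H]
    (U R : KK → H →ₗᵢ[ℝ] H), Rot U R → ∀ ξ : H, Fix R ξ → ∀ (r : KK) (D : ℚ),
    (r : ℂ).im = 0 → (r : ℂ) ^ 2 = D → r ≠ 0 → Pj U r ξ = Pj U 1 ξ

/-- The phenomenon of Mautner. -/
def RowMA0 : Prop :=
  ∀ (V : Type) [NormedAddCommGroup V] (Γ : AddSubgroup V) (N : V → ℝ) (A B : V → V) (x y : V),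
    Dense (Γ : Set V) → Continuous A → Continuous B → (∀ a ∈ Γ, A a ∈ Γ ∧ N (A a) = N a) →
    (∀ a ∈ Γ, B a ∈ Γ ∧ N (B a) = N a) → (∀ a ∈ Γ, ∀ b ∈ Γ, N (a + b) ≤ N a + N b) →
    (∀ ε : ℝ, 0 < ε → ∃ δ : ℝ, 0 < δ ∧ ∀ a ∈ Γ, ‖a‖ ≤ δ → N a ≤ ε) →
    Tendsto (fun k => A^[k] x) atTop (𝓝 0) → Tendsto (fun k => B^[k] y) atTop (𝓝 0) →
    ∀ ε : ℝ, 0 < ε → ∃ δ : ℝ, 0 < δ ∧ ∀ a ∈ Γ, ‖a - (x + y)‖ ≤ δ → N a ≤ ε

/-- A rotation that is hyperbolic at the conjugate place. -/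
def RowMA : Prop :=
  ∀ (H : Type) [NormedAddCommGroup H] [InnerProductSpace ℝ H] [CompleteSpace H]
    (U R : KK → H →ₗᵢ[ℝ] H), Rot U R → ∀ (η : H) (r μ : KK) (D a b : ℚ),
    (r : ℂ).im = 0 → (r : ℂ) ^ 2 = D → 0 < (r : ℂ).re → η ∈ Hs U 1 → η ∈ Hs U r →
    ‖(μ : ℂ)‖ = 1 → μ + μ⁻¹ = a - b * r → 2 < a + b * (r : ℂ).re → R μ η = η →
    ∀ ε : ℝ, 0 < ε → ∃ δ : ℝ, 0 < δ ∧ ∀ q : ℚ, |q - (r : ℂ).re| ≤ δ → ‖U q η - U r η‖ ≤ ε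

/-- The correlation is uniformly continuous on the points with rational norm. -/
def RowRP : Prop :=
  ∀ (H : Type) [NormedAddCommGroup H] [InnerProductSpace ℝ H] [CompleteSpace H]
    (U R : KK → H →ₗᵢ[ℝ] H), Rot U R → ∀ ξ : H, Fix R ξ → ∀ η : ℝ, 0 < η → ∃ δ : ℝ, 0 < δ ∧
    ∀ ξ' : H, Fix R ξ' → ∀ z z' : KK, z ≠ 0 → z' ≠ 0 → (∃ D : ℚ, ‖(z : ℂ)‖ ^ 2 = D) →
      (∃ D : ℚ, ‖(z' : ℂ)‖ ^ 2 = D) → |‖(z : ℂ)‖ - ‖(z' : ℂ)‖| ≤ δ →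
      |⟪ξ', U z ξ⟫ - ⟪ξ', U z' ξ⟫| ≤ η * ‖ξ'‖

def OfPA : Prop := X.SRPD → RowMIN → RowHC → RowPA
def OfPL : Prop := RowHC → RowTWO → RowPL
def OfSQ : Prop := RowHC → RowPL → RowSQ
def OfMA : Prop := RowHC → RowMA0 → RowMA
def OfRP : Prop := RowHC → RowPA → RowPL → RowSQ → RowMA → RowRP

/-! ### Configurations -/

/-- The group of translations. -/
abbrev GG (M : ℕ) : Type := Fin (M + 1) → KK

section space

variable {M n : ℕ}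

/-- Rotations of the first coordinate. -/
def Un1 (l : GG M) : Prop := Un l ∧ ∀ j : Fin M, l j.succ = 1

/-- The rotation of the first coordinate by `l`. -/
def rl (l : KK) : GG M := Fin.cons l fun _ => 1

/-- All coordinates but the first are real. -/
def Rl (v : Ec (M + 1)) : Prop := ∀ j : Fin M, (v j.succ).im = 0

/-- The rational points. -/
def Hg (M : ℕ) : AddSubgroup (GG M) where
  carrier := {z | (∀ j, z j ∈ kS) ∧ Rl (em z)}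
  add_mem' := fun {a b} ha hb => ⟨fun j => kS.add_mem (ha.1 j) (hb.1 j), fun j => by
    have h1 := ha.2 j
    have h2 := hb.2 j
    simp only [em_apply] at h1 h2
    simp [h1, h2]⟩
  zero_mem' := ⟨fun _ => kS.zero_mem, fun j => by simp⟩
  neg_mem' := fun {a} ha => ⟨fun j => kS.neg_mem (ha.1 j), fun j => by
    have h1 := ha.2 j
    simp only [em_apply] at h1
    simp [h1]⟩

def XS1 (C ε : ℝ) (O₁ O₂ : Set (Ec (M + 1))) : Set (Om KK (M + 1) n) :=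
  {w | (∀ j, ‖w.2.1 j‖ = 1) ∧ (∀ z, ‖w.2.2 z‖ ≤ C + 2 * ‖ps w (em z)‖) ∧
    ((∀ j : Fin M, w.2.1 j.succ = 1) ∧
      ∀ z z', Rl (XT.em z - XT.em z') → ‖XT.em z - XT.em z'‖ = 1 → ‖w.2.2 z - w.2.2 z'‖ = 1) ∧
    ∀ z z', ps w (em z) ∈ O₁ → ps w (em z') ∈ O₂ → ‖w.2.2 z - w.2.2 z'‖ ≤ ‖em z - em z'‖ - ε}

/-- An invariant measure on the configurations. -/
structure Sy1 (C ε : ℝ) (O₁ O₂ : Set (Ec (M + 1))) (ν : Measure (Om KK (M + 1) n)) : Prop where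
  ae : ∀ᵐ w ∂ν, w ∈ XS1 C ε O₁ O₂
  ne : ν ≠ 0
  fin : ∀ R : ℝ, ν {w | ‖w.1‖ ≤ R} ≠ ⊤
  inv : ∀ a l, Un1 l → MeasurePreserving (mv a l) ν ν

/-- Rational points near a given point. -/
structure Pt1 (q : ℕ → Ec (M + 1) → GG M) : Prop where
  mem : ∀ j v, q j v ∈ Hg M
  near : ∀ ε : ℝ, 0 < ε → ∃ N, ∀ j, N ≤ j → ∀ v, Rl v → ‖em (q j v) - v‖ ≤ ε
  meas : ∀ j z, MeasurableSet {v | q j v = z}

/-- Weights on small rational points. -/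
def Sm (c : ℕ → Wg (GG M)) : Prop :=
  ∀ j : ℕ, (c j).Ok {z | z ∈ Hg M ∧ ‖em z‖ ≤ 1 / ((j : ℝ) + 1)}

/-- The weighted mean of the values near `y`. -/
def mn (a : Wg (GG M)) (ξ : Ec (M + 1) × Eu n → ℝ) (y : GG M) (w : Om KK (M + 1) n) : ℝ :=
  ∑ i ∈ Finset.range a.N, a.c i * ev ξ (y + a.p i) w

/-- The means are Cauchy. -/
def Cy (ν : Measure (Om KK (M + 1) n)) (c : ℕ → Wg (GG M)) (ξ : Ec (M + 1) × Eu n → ℝ) : Prop :=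
  ∀ η : ℝ, 0 < η → ∃ N : ℕ, ∀ j j', N ≤ j → N ≤ j' → ∀ y ∈ Hg M, ∀ y' ∈ Hg M,
    ‖em y - em y'‖ ≤ 1 / ((N : ℝ) + 1) → ∫ w, (mn (c j) ξ y w - mn (c j') ξ y' w) ^ 2 ∂ν ≤ η

/-- The averaged field of matrices. -/
def PK {ι : Type} (χ : Ec (M + 1) → ℝ) (F : Eu n → ι → ℝ) (c : ℕ → Wg (GG M))
    (q : ℕ → Ec (M + 1) → GG M) (j : ℕ) (v : Ec (M + 1)) (w : Om KK (M + 1) n) : Matrix ι ι ℝ :=
  Matrix.of fun a b => mn (c j) (xi χ F a b) (q j v) w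

/-- Two points that differ only in the first coordinate, by at most `δ` in absolute value. -/
structure Cls (δ : ℝ) (z z' : GG M) : Prop where
  tl : ∀ j : Fin M, z j.succ = z' j.succ
  ne : z 0 ≠ 0
  ne' : z' 0 ≠ 0
  rat : ∃ D : ℚ, ‖(z 0 : ℂ)‖ ^ 2 = D
  rat' : ∃ D : ℚ, ‖(z' 0 : ℂ)‖ ^ 2 = D
  near : |‖(z 0 : ℂ)‖ - ‖(z' 0 : ℂ)‖| ≤ δ

end space

/-- The invariant measure. -/
def RowSY : Prop :=
  ∀ (M n : ℕ) (f : Ec (M + 1) → Eu n) (C ε : ℝ) (O₁ O₂ : Set (Ec (M + 1))), IsOpen O₁ → IsOpen O₂ →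
    (∀ x y, Rl (x - y) → ‖x - y‖ = 1 → ‖f x - f y‖ = 1) → (∀ x, ‖f x‖ ≤ C + 2 * ‖x‖) →
    (∀ p ∈ O₁, ∀ q ∈ O₂, ‖f p - f q‖ ≤ ‖p - q‖ - ε) →
    ∃ ν : Measure (Om KK (M + 1) n), Sy1 C ε O₁ O₂ ν

def RowCHI1 : Prop :=
  ∀ (M n : ℕ) (C ε : ℝ) (O₁ O₂ : Set (Ec (M + 1))) (ν : Measure (Om KK (M + 1) n))
    (ι : Type) [Fintype ι] (F : Eu n → ι → ℝ), Sy1 C ε O₁ O₂ ν → Continuous F → ∃ χ, Wt ν F χ

def RowPT : Prop := ∀ M : ℕ, ∃ q : ℕ → Ec (M + 1) → GG M, Pt1 q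

/-- The representation on the square integrable functions. -/
def RowREP : Prop :=
  ∀ (M n : ℕ) (C ε : ℝ) (O₁ O₂ : Set (Ec (M + 1))) (ν : Measure (Om KK (M + 1) n)),
    Sy1 C ε O₁ O₂ ν → ∃ (U : GG M → Lp ℝ 2 ν →ₗᵢ[ℝ] Lp ℝ 2 ν) (R : KK → Lp ℝ 2 ν →ₗᵢ[ℝ] Lp ℝ 2 ν),
      Rep U ∧ (∀ (l : KK) z v, ‖(l : ℂ)‖ = 1 → R l (U z v) = U (rl l * z) (R l v)) ∧
      (∀ (l : KK) v, ‖(l : ℂ)‖ = 1 → R l (R l⁻¹ v) = v) ∧
      ∀ (ξ : Ec (M + 1) × Eu n → ℝ) (h : MemLp (ev ξ (0 : GG M)) 2 ν),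
        Fix R (h.toLp _) ∧ ∀ z, ⇑(U z (h.toLp _)) =ᵐ[ν] ev ξ z

/-- The correlations are uniformly continuous in the first coordinate. -/
def RowCOR : Prop :=
  ∀ (M n : ℕ) (C ε : ℝ) (O₁ O₂ : Set (Ec (M + 1))) (ν : Measure (Om KK (M + 1) n)),
    Sy1 C ε O₁ O₂ ν → ∀ ξ ξ' : Ec (M + 1) × Eu n → ℝ,
    MemLp (ev ξ (0 : GG M)) 2 ν → MemLp (ev ξ' (0 : GG M)) 2 ν →
    (∀ z : GG M, MemLp (ev ξ z) 2 ν) ∧ ∀ η : ℝ, 0 < η → ∃ δ : ℝ, 0 < δ ∧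
      ∀ y z z' : GG M, Cls δ z z' →
        |∫ w, ev ξ y w * ev ξ' (y + z) w ∂ν - ∫ w, ev ξ y w * ev ξ' (y + z') w ∂ν| ≤ η

def RowMN : Prop :=
  ∀ (M n : ℕ) (C ε : ℝ) (O₁ O₂ : Set (Ec (M + 1))) (ν : Measure (Om KK (M + 1) n)),
    Sy1 C ε O₁ O₂ ν → ∀ (T : Type) [Fintype T] (ξ : T → Ec (M + 1) × Eu n → ℝ),
    (∀ t, MemLp (ev (ξ t) (0 : GG M)) 2 ν) → ∃ c, Sm c ∧ ∀ t, Cy ν c (ξ t)

/-- A rational point near a unit vector is close to a unit vector with the same tail. -/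
def RowSP : Prop :=
  ∀ (M : ℕ) (u : Ec (M + 1)), ‖u‖ = 1 → u 0 ≠ 0 → ∀ δ : ℝ, 0 < δ → ∃ δ' : ℝ, 0 < δ' ∧
    ∀ z ∈ Hg M, ‖em z - u‖ ≤ δ' → ∃ z' : GG M, Cls δ z z' ∧ ‖em z'‖ = 1 ∧ Rl (em z')

/-- The averaged fields are Cauchy, and asymptotically orthogonal at unit distance. -/
def RowCA : Prop :=
  ∀ (M n : ℕ) (C ε : ℝ) (O₁ O₂ : Set (Ec (M + 1))) (ν : Measure (Om KK (M + 1) n))
    (ι : Type) [Fintype ι] (J : Matrix ι ι ℝ) (g : ι → ℝ) (F : Eu n → ι → ℝ)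
    (χ : Ec (M + 1) → ℝ) (c : ℕ → Wg (GG M)) (q : ℕ → Ec (M + 1) → GG M),
    Sy1 C ε O₁ O₂ ν → Lift J g F → Wt ν F χ → Sm c → (∀ a b, Cy ν c (xi χ F a b)) → Pt1 q →
    (∀ a b j v, MemLp (fun w => PK χ F c q j v w a b) 2 ν) ∧
    (∀ a b, ∀ η : ℝ, 0 < η → ∃ N, ∀ j j', N ≤ j → N ≤ j' → ∀ v, Rl v →
      ∫ w, (PK χ F c q j v w a b - PK χ F c q j' v w a b) ^ 2 ∂ν ≤ η) ∧
    ∀ v u : Ec (M + 1), Rl v → Rl u → ‖u‖ = 1 → u 0 ≠ 0 →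
      Tendsto (fun j => ∫ w, (PK χ F c q j v w * J * PK χ F c q j (v + u) w * J).trace ∂ν)
        atTop (𝓝 0)

/-- Pointwise facts about limits of the averaged fields. -/
def RowPW1 : Prop :=
  ∀ (M n : ℕ) (C ε : ℝ) (O₁ O₂ : Set (Ec (M + 1))) (ν : Measure (Om KK (M + 1) n))
    (ι : Type) [Fintype ι] (J : Matrix ι ι ℝ) (g : ι → ℝ) (F : Eu n → ι → ℝ) (χ : Ec (M + 1) → ℝ)
    (c : ℕ → Wg (GG M)) (q : ℕ → Ec (M + 1) → GG M) (σ : ℕ → ℕ), Lift J g F → Wt ν F χ → Sm c →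
    Pt1 q → Tendsto σ atTop atTop → IsOpen O₁ → IsOpen O₂ →
    (∀ (j : ℕ) (v : Ec (M + 1)) (w : Om KK (M + 1) n), (PK χ F c q j v w).PosSemidef) ∧
    ∀ w : Om KK (M + 1) n, w ∈ XS1 C ε O₁ O₂ → ∀ (v : Ec (M + 1)) (P : Matrix ι ι ℝ), Rl v →
      (∀ a b, Tendsto (fun k => PK χ F c q (σ k) v w a b) atTop (𝓝 (P a b))) →
      (P.PosSemidef ∧ (P * J).trace = g ⬝ᵥ P *ᵥ g ∧ 0 < g ⬝ᵥ P *ᵥ g) ∧
      ∀ (v' : Ec (M + 1)) (P' : Matrix ι ι ℝ), Rl v' →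
        (∀ a b, Tendsto (fun k => PK χ F c q (σ k) v' w a b) atTop (𝓝 (P' a b))) →
        ps w v ∈ O₁ → ps w v' ∈ O₂ → ε ≤ ‖v - v'‖ ∧
          (g ⬝ᵥ P *ᵥ g) * (g ⬝ᵥ P' *ᵥ g) * (1 - (‖v - v'‖ - ε) ^ 2) ≤ (P *ᵥ g) ⬝ᵥ J *ᵥ (P' *ᵥ g)

/-- The real space inside the complex space. -/
def RowEM : Prop :=
  ∀ M : ℕ, ∃ (e : Eu (M + 2) →ₗᵢ[ℝ] Ec (M + 1)) (π : Ec (M + 1) →L[ℝ] Eu (M + 2)),
    (∀ x, Rl (e x)) ∧ (∀ v, ‖π v‖ ≤ ‖v‖) ∧ (∀ v, Rl v → ‖π v‖ = ‖v‖) ∧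
    (∀ᵐ z ∂X.sig (M + 2), e z 0 ≠ 0) ∧
    ∀ (l : Fin (M + 1) → ℂ) (a : Ec (M + 1)) (o : Eu (M + 2)), (∀ j, ‖l j‖ = 1) →
      (∀ j : Fin M, l j.succ = 1) → ∃ x, π (a + rot l (e x)) = o

/-- The transfer. -/
def RowT1 : Prop :=
  ∀ (M n : ℕ) (ι : Type) [Fintype ι] (J : Matrix ι ι ℝ) (g : ι → ℝ) (F : Eu n → ι → ℝ),
    Lift J g F → MS (M + 2) J g → AllIso (M + 2) n

def OfCOR : Prop := RowREP → RowRP → RowCOR
def OfMN : Prop := RowREP → RowMIN → RowMN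
def OfCA : Prop := RowCOR → RowSP → RowCA
def OfT1 : Prop := RowSY → RowCHI1 → RowPT → RowMN → RowCA → RowPW1 → RowEM → RowT1

end

end Pool.Agent.MP_66cee2_co.DX
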